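import Pool.Agent.H717.NL.Basic

set_option autoImplicit false

open Polynomial

namespace Pool.Agent.H717.NL

/-- the working data: `δ, H`, diagonal, squared off-diagonal, `j/n`, `j` -/
abbrev Dat (n : ℕ) := ((ℝ × ℝ) × ((Fin n → ℝ) × (Fin n → ℝ))) × ((Fin n → ℝ) × (Fin n → ℝ))

/-- the input: `δ`, diagonal, real parts and imaginary parts of the off-diagonal -/
abbrev Inp (n : ℕ) := ℝ × ((Fin n → ℝ) × ((Fin n → ℝ) × (Fin n → ℝ)))

/-- the padded diagonal of `A + x δ X` -/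
noncomputable def aPad (n N : ℕ) (d : Dat n) (x : ℝ) : Fin N → ℝ :=
  fun i => if h : (i : ℕ) < n then d.1.2.1 ⟨i, h⟩ + x * (d.1.1.1 * d.2.1 ⟨i, h⟩) else d.1.1.2

/-- the padded off-diagonal -/
noncomputable def cPad (n N : ℕ) (d : Dat n) : Fin N → ℝ :=
  fun i => if h : (i : ℕ) + 1 < n then d.1.2.2 ⟨i, by omega⟩ else 0

/-- the approximate potential -/
noncomputable def PsiA {n N : ℕ} (hN : n ≤ N) (F : ((Fin N → ℝ) × (Fin N → ℝ)) × ℝ → (Fin N → ℝ))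
    (d : Dat n) (x : ℝ) : ℝ :=
  ∑ i : Fin n, d.2.2 i * F ((aPad n N d x, cPad n N d), d.1.1.2) (Fin.castLE hN i)

theorem cmp_PsiA {n N : ℕ} (hN : n ≤ N) (F : ((Fin N → ℝ) × (Fin N → ℝ)) × ℝ → (Fin N → ℝ))
    (c : ℕ) (hF : Cmp F c) :
    Cmp (fun p : Dat n × ℝ => PsiA hN F p.1 p.2) (c + 8 * N + 3) := by
  have hd : Cmp (fun p : Dat n × ℝ => p.1) 0 := Cmp.fst
  have hx : Cmp (fun p : Dat n × ℝ => p.2) 0 := Cmp.snd
  have h11 := (hd.on Cmp.fst).on Cmp.fst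
  have h12 := (hd.on Cmp.fst).on Cmp.snd
  have hδ := h11.on Cmp.fst
  have hH := h11.on Cmp.snd
  have ha := h12.on Cmp.fst
  have hc := h12.on Cmp.snd
  have hxs := (hd.on Cmp.snd).on Cmp.fst
  have his := (hd.on Cmp.snd).on Cmp.snd
  have h1 : Cmp (fun p : Dat n × ℝ => aPad n N p.1 p.2) (N * 3) := by
    apply Cmp.pi
    intro i
    unfold aPad
    by_cases h : (i : ℕ) < n
    · simp only [h, dite_true]
      have e1 : Cmp (fun p : Dat n × ℝ => p.1.1.2.1 ⟨i, h⟩) 0 := ha.on (Cmp.proj (⟨i, h⟩ : Fin n))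
      have e2 : Cmp (fun p : Dat n × ℝ => p.1.2.1 ⟨i, h⟩) 0 := hxs.on (Cmp.proj (⟨i, h⟩ : Fin n))
      exact (e1.add' (hx.mul' (hδ.mul' e2))).mono (by omega)
    · simp only [h, dite_false]
      exact hH.mono (by omega)
  have h2 : Cmp (fun p : Dat n × ℝ => cPad n N p.1) (N * 3) := by
    apply Cmp.pi
    intro i
    unfold cPad
    by_cases h : (i : ℕ) + 1 < n
    · simp only [h, dite_true]
      exact Cmp.mono (c := 0) (hc.on (Cmp.proj (⟨(i : ℕ), by omega⟩ : Fin n))) (by omega)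
    · simp only [h, dite_false]
      exact Cmp.zero
  have h3 : Cmp (fun p : Dat n × ℝ => F ((aPad n N p.1 p.2, cPad n N p.1), p.1.1.1.2))
      (N * 3 + N * 3 + 0 + c) := ((h1.pair h2).pair hH).comp hF
  have h4 : Cmp (fun q : (Dat n × ℝ) × (Fin N → ℝ) =>
      ∑ i : Fin n, q.1.1.2.2 i * q.2 (Fin.castLE hN i)) (n * 1 + (n + 3)) := by
    have h5 : Cmp (fun q : (Dat n × ℝ) × (Fin N → ℝ) =>
        fun i : Fin n => q.1.1.2.2 i * q.2 (Fin.castLE hN i)) (n * 1) := by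
      apply Cmp.pi
      intro i
      exact ((((Cmp.fst (α := Dat n × ℝ) (β := Fin N → ℝ)).on his).on (Cmp.proj i)).mul'
        (Cmp.snd.on (Cmp.proj (Fin.castLE hN i)))).mono (by omega)
    exact h5.comp Cmp.sum
  refine ((h3.bind h4).mono ?_).congr fun p => rfl
  omega

theorem cmp_sd {α : Type} [Vec α] {f : α → ℝ → ℝ} {m h : α → ℝ} {c cm ch : ℕ}
    (hf : Cmp (fun p : α × ℝ => f p.1 p.2) c) (hm : Cmp m cm) (hh : Cmp h ch) :
    Cmp (fun a => sd (f a) (m a) (h a)) (3 * c + cm + ch + 10) := by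
  have h1 : Cmp (fun q : α × (ℝ × ℝ) => sd (f q.1) q.2.1 q.2.2) (3 * c + 10) := by
    have ha : Cmp (fun q : α × (ℝ × ℝ) => q.1) 0 := Cmp.fst
    have hm' : Cmp (fun q : α × (ℝ × ℝ) => q.2.1) 0 := Cmp.snd.on Cmp.fst
    have hh' : Cmp (fun q : α × (ℝ × ℝ) => q.2.2) 0 := Cmp.snd.on Cmp.snd
    have e1 := (ha.pair (hm'.add' hh')).comp hf
    have e2 := (ha.pair (hm'.sub' hh')).comp hf
    have e3 := (ha.pair hm').comp hf
    have e4 : Cmp (fun _ : α × (ℝ × ℝ) => (2 : ℝ)) 2 :=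
      (Cmp.two_pow 1).congr fun _ => by norm_num
    exact ((e1.add' e2).sub' (e4.mul' e3)).mono (by omega)
  exact ((hm.pair hh).bind h1).mono (by omega)

theorem cmp_round {α : Type} [Vec α] {f : α → ℝ → ℝ} {c : ℕ}
    (hf : Cmp (fun p : α × ℝ => f p.1 p.2) c) :
    Cmp (fun p : α × (ℝ × ℝ) => round (f p.1) p.2) (12 * c + 120) := by
  have hf' : Cmp (fun p : (α × (ℝ × ℝ)) × ℝ => f p.1.1 p.2) c :=
    ((Cmp.fst.on Cmp.fst).pair Cmp.snd |>.mono (Nat.zero_le _) |>.on hf)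
  have hm : Cmp (fun p : α × (ℝ × ℝ) => p.2.1) 0 := Cmp.snd.on Cmp.fst
  have hh0 : Cmp (fun p : α × (ℝ × ℝ) => p.2.2) 0 := Cmp.snd.on Cmp.snd
  have e4 : Cmp (fun _ : α × (ℝ × ℝ) => (2 : ℝ)) 2 :=
    (Cmp.two_pow 1).congr fun _ => by norm_num
  have hh : Cmp (fun p : α × (ℝ × ℝ) => p.2.2 / 2) 3 := hh0.div' e4
  have hl : Cmp (fun p : α × (ℝ × ℝ) => p.2.1 - p.2.2 / 2) 4 := hm.sub' hh
  have hr : Cmp (fun p : α × (ℝ × ℝ) => p.2.1 + p.2.2 / 2) 4 := hm.add' hh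
  have s1 := cmp_sd (f := fun a : α × (ℝ × ℝ) => f a.1) hf' hm hh
  have s2 := cmp_sd (f := fun a : α × (ℝ × ℝ) => f a.1) hf' hl hh
  have s3 := cmp_sd (f := fun a : α × (ℝ × ℝ) => f a.1) hf' hr hh
  have t1 := s1.sub' s2
  have t2 := s3.sub' s2
  have t3 := s3.sub' s1
  refine ((t1.ite (t2.ite (hl.pair hh) (hr.pair hh)) (t3.ite (hm.pair hh) (hr.pair hh))).mono
    ?_).congr fun p => rfl
  omega

/-- preprocessing -/
noncomputable def pre (n J : ℕ) (p : Inp n) : Dat n :=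
  (((p.1, 3 * ((2 ^ J + 1) * p.1)),
    (p.2.1, fun i => p.2.2.1 i * p.2.2.1 i + p.2.2.2 i * p.2.2.2 i)),
    (fun i => ((i : ℕ) : ℝ) / n, fun i => ((i : ℕ) : ℝ)))

theorem cmp_pre (n J : ℕ) : Cmp (pre n J) (J + 30 + n * (16 * Nat.log 2 n + 20)) := by
  have hδ : Cmp (fun p : Inp n => p.1) 0 := Cmp.fst
  have ha : Cmp (fun p : Inp n => p.2.1) 0 := Cmp.snd.on Cmp.fst
  have hp : Cmp (fun p : Inp n => p.2.2.1) 0 := (Cmp.snd.on Cmp.snd).on Cmp.fst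
  have hq : Cmp (fun p : Inp n => p.2.2.2) 0 := (Cmp.snd.on Cmp.snd).on Cmp.snd
  have h3 : Cmp (fun _ : Inp n => (3 : ℝ)) 8 :=
    ((Cmp.nat 3).congr fun _ => by norm_num).mono (by norm_num [Nat.log])
  have hH : Cmp (fun p : Inp n => 3 * ((2 ^ J + 1) * p.1)) (J + 20) :=
    (h3.mul' (((Cmp.two_pow J).add' Cmp.one).mul' hδ)).mono (by omega)
  have hc : Cmp (fun p : Inp n => fun i => p.2.2.1 i * p.2.2.1 i + p.2.2.2 i * p.2.2.2 i)
      (n * 3) := by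
    apply Cmp.pi
    intro i
    exact (((hp.on (Cmp.proj i)).mul' (hp.on (Cmp.proj i))).add'
      ((hq.on (Cmp.proj i)).mul' (hq.on (Cmp.proj i)))).mono (by omega)
  have hlog : ∀ i : Fin n, Nat.log 2 (i : ℕ) ≤ Nat.log 2 n := fun i =>
    Nat.log_mono_right i.2.le
  have hxs : Cmp (fun _ : Inp n => fun i : Fin n => ((i : ℕ) : ℝ) / n)
      (n * (8 * Nat.log 2 n + 9)) := by
    apply Cmp.pi
    intro i
    have := hlog i
    exact ((Cmp.nat (i : ℕ)).div' (Cmp.nat n)).mono (by omega)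
  have his : Cmp (fun _ : Inp n => fun i : Fin n => ((i : ℕ) : ℝ))
      (n * (4 * Nat.log 2 n + 4)) := by
    apply Cmp.pi
    intro i
    have := hlog i
    exact (Cmp.nat (i : ℕ)).mono (by omega)
  refine ((((hδ.pair hH).pair (ha.pair hc)).pair (hxs.pair his)).mono ?_).congr fun p => rfl
  nlinarith [Nat.zero_le (n * Nat.log 2 n)]

/-- the algorithm -/
noncomputable def algo {n N : ℕ} (hN : n ≤ N)
    (F : ((Fin N → ℝ) × (Fin N → ℝ)) × ℝ → (Fin N → ℝ)) (J L : ℕ) (p : Inp n) : Fin n → ℝ :=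
  fun j => ((round (PsiA hN F (pre n J p)))^[L] (1 / 2, 1 / 2)).1 * (pre n J p).2.1 j

theorem cmp_algo {n N : ℕ} (hN : n ≤ N) (F : ((Fin N → ℝ) × (Fin N → ℝ)) × ℝ → (Fin N → ℝ))
    (c : ℕ) (hF : Cmp F c) (J L : ℕ) :
    Cmp (algo hN F J L)
      (J + 50 + N * (16 * Nat.log 2 n + 21) + L * (12 * (c + 8 * N + 3) + 120)) := by
  have h1 := cmp_round (cmp_PsiA hN F c hF)
  have h2 : Cmp (fun q : Dat n × (ℝ × ℝ) => (q.1, round (PsiA hN F q.1) q.2))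
      (12 * (c + 8 * N + 3) + 120) := (Cmp.fst.pair h1).mono (by omega)
  have h3 := h2.iterate L
  have hit : ∀ (m : ℕ) (d : Dat n) (s : ℝ × ℝ),
      (fun q : Dat n × (ℝ × ℝ) => (q.1, round (PsiA hN F q.1) q.2))^[m] (d, s)
        = (d, (round (PsiA hN F d))^[m] s) := by
    intro m
    induction m with
    | zero => intro d s; rfl
    | succ m ih => intro d s; rw [Function.iterate_succ_apply, Function.iterate_succ_apply]; exact ih _ _
  have e2 : Cmp (fun _ : Dat n => (1 / 2 : ℝ)) 4 :=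
    (Cmp.one.div' ((Cmp.two_pow 1).congr fun _ => by norm_num)).mono (by omega)
  have h4 : Cmp (fun d : Dat n => (d, ((1 / 2 : ℝ), (1 / 2 : ℝ)))) 8 :=
    (Cmp.id.pair (e2.pair e2)).mono (by omega)
  have h5 : Cmp (fun q : Dat n × (ℝ × ℝ) => fun j : Fin n => q.2.1 * q.1.2.1 j) (n * 1) := by
    apply Cmp.pi
    intro j
    exact ((Cmp.snd.on Cmp.fst).mul'
      (((Cmp.fst.on Cmp.snd).on Cmp.fst).on (Cmp.proj j))).mono (by omega)
  refine (((cmp_pre n J).comp ((h4.comp h3).comp h5)).mono ?_).congr fun p => ?_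
  · have : n * (16 * Nat.log 2 n + 20) ≤ N * (16 * Nat.log 2 n + 20) := Nat.mul_le_mul_right _ hN
    have e : N * (16 * Nat.log 2 n + 21) = N * (16 * Nat.log 2 n + 20) + N := by ring
    omega
  · simp only [hit]
    rfl

end Pool.Agent.H717.NL
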