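import Pool.Agent.H717.NL.Stmts2

/-!
(By helper707.) JAC: the characteristic polynomial of a Jacobi matrix is the continuant.
-/

set_option autoImplicit false

open Polynomial

namespace Pool.Agent.H717.NL

namespace JacX

variable {K : Type} [CommRing K]

/-- tridiagonal matrices -/
def tri (n : ℕ) (α β γ : ℕ → K) : Matrix (Fin n) (Fin n) K :=
  Matrix.of fun i j => if (i : ℕ) = j then α i else if (i : ℕ) + 1 = j then β i
    else if (j : ℕ) + 1 = i then γ j else 0

theorem tri_apply (n : ℕ) (α β γ : ℕ → K) (i j : Fin n) : tri n α β γ i j =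
    if (i : ℕ) = j then α i else if (i : ℕ) + 1 = j then β i
    else if (j : ℕ) + 1 = i then γ j else 0 := rfl

/-- the block of the first sites -/
theorem tri_sub (n : ℕ) (α β γ : ℕ → K) :
    (tri (n + 1) α β γ).submatrix Fin.castSucc Fin.castSucc = tri n α β γ := by
  ext i j
  rw [Matrix.submatrix_apply, tri_apply, tri_apply]
  simp only [Fin.val_castSucc]

theorem det_tri (n : ℕ) (α β γ : ℕ → K) : (tri (n + 2) α β γ).det =
    α (n + 1) * (tri (n + 1) α β γ).det - β n * γ n * (tri n α β γ).det := by
  rw [Matrix.det_succ_row _ (Fin.last (n + 1)), Fin.sum_univ_castSucc, Fin.sum_univ_castSucc]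
  have hla : (Fin.last (n + 1)).succAbove = Fin.castSucc := by
    funext i
    exact Fin.succAbove_last_apply i
  have e0 : ∑ i : Fin n, (-1 : K) ^ ((Fin.last (n + 1) : ℕ) + (i.castSucc.castSucc : ℕ)) *
      tri (n + 2) α β γ (Fin.last (n + 1)) i.castSucc.castSucc *
      ((tri (n + 2) α β γ).submatrix (Fin.last (n + 1)).succAbove
        i.castSucc.castSucc.succAbove).det = 0 := by
    refine Finset.sum_eq_zero fun i _ => ?_
    have h1 : tri (n + 2) α β γ (Fin.last (n + 1)) i.castSucc.castSucc = 0 := by
      rw [tri_apply]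
      simp only [Fin.val_last, Fin.val_castSucc]
      have := i.2
      rw [if_neg (by omega), if_neg (by omega), if_neg (by omega)]
    rw [h1, mul_zero, zero_mul]
  have e1 : tri (n + 2) α β γ (Fin.last (n + 1)) (Fin.last (n + 1)) = α (n + 1) := by
    rw [tri_apply]
    simp
  have e2 : tri (n + 2) α β γ (Fin.last (n + 1)) (Fin.last n).castSucc = γ n := by
    rw [tri_apply]
    simp only [Fin.val_last, Fin.val_castSucc]
    rw [if_neg (by omega), if_neg (by omega), if_pos trivial]
  have e3 : ((tri (n + 2) α β γ).submatrix Fin.castSucc (Fin.last n).castSucc.succAbove).det =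
      β n * (tri n α β γ).det := by
    rw [Matrix.det_succ_column _ (Fin.last n), Fin.sum_univ_castSucc]
    have h0 : ∑ i : Fin n, (-1 : K) ^ ((i.castSucc : ℕ) + (Fin.last n : ℕ)) *
        ((tri (n + 2) α β γ).submatrix Fin.castSucc (Fin.last n).castSucc.succAbove) i.castSucc
          (Fin.last n) *
        (((tri (n + 2) α β γ).submatrix Fin.castSucc
          (Fin.last n).castSucc.succAbove).submatrix i.castSucc.succAbove
          (Fin.last n).succAbove).det = 0 := by
      refine Finset.sum_eq_zero fun i _ => ?_
      have h1 : ((tri (n + 2) α β γ).submatrix Fin.castSucc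
          (Fin.last n).castSucc.succAbove) i.castSucc (Fin.last n) = 0 := by
        rw [Matrix.submatrix_apply, tri_apply,
          Fin.succAbove_of_le_castSucc _ _ (by rw [Fin.le_def])]
        simp only [Fin.val_succ, Fin.val_last, Fin.val_castSucc]
        have := i.2
        rw [if_neg (by omega), if_neg (by omega), if_neg (by omega)]
      rw [h1, mul_zero, zero_mul]
    rw [h0, zero_add]
    have h2 : ((tri (n + 2) α β γ).submatrix Fin.castSucc
        (Fin.last n).castSucc.succAbove) (Fin.last n) (Fin.last n) = β n := by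
      rw [Matrix.submatrix_apply, tri_apply,
        Fin.succAbove_of_le_castSucc _ _ (by rw [Fin.le_def])]
      simp only [Fin.val_succ, Fin.val_last, Fin.val_castSucc]
      rw [if_neg (by omega), if_pos trivial]
    rw [h2]
    have h3 : (((tri (n + 2) α β γ).submatrix Fin.castSucc
        (Fin.last n).castSucc.succAbove).submatrix (Fin.last n).succAbove
        (Fin.last n).succAbove) = tri n α β γ := by
      ext i j
      rw [Matrix.submatrix_apply, Matrix.submatrix_apply, Fin.succAbove_last_apply,
        Fin.succAbove_last_apply, tri_apply, tri_apply,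
        Fin.succAbove_of_castSucc_lt _ _ (by
          rw [Fin.lt_def]
          simp only [Fin.val_castSucc, Fin.val_last]
          exact j.2)]
      simp only [Fin.val_castSucc]
    rw [h3, Fin.val_last, ← two_mul, pow_mul]
    ring
  rw [e0, e1, e2, hla, tri_sub, e3]
  simp only [Fin.val_last, Fin.val_castSucc]
  have s1 : (-1 : K) ^ (n + 1 + (n + 1)) = 1 := by
    rw [← two_mul, pow_mul]
    simp
  have s2 : (-1 : K) ^ (n + 1 + n) = -1 := by
    have : n + 1 + n = 2 * n + 1 := by ring
    rw [this, pow_succ, pow_mul]
    simp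
  rw [s1, s2]
  ring

theorem charpoly_eq (n : ℕ) (a r : ℕ → ℝ) : (jac n a r).charpoly =
    (tri n (fun i => X - C (a i)) (fun i => -C (r i)) (fun i => -C (r i))).det := by
  unfold Matrix.charpoly
  congr 1
  refine Matrix.ext fun i j => ?_
  rw [tri_apply, Matrix.charmatrix_apply]
  unfold jac
  rw [Matrix.of_apply]
  by_cases h : i = j
  · subst h
    rw [Matrix.diagonal_apply_eq, if_pos rfl, if_pos rfl]
  · have h' : (i : ℕ) ≠ j := fun h1 => h (Fin.ext h1)
    rw [Matrix.diagonal_apply_ne _ h, if_neg h', if_neg h', zero_sub]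
    split_ifs <;> simp

end JacX

theorem t_jac : S_jac := by
  intro n a r
  rw [JacX.charpoly_eq]
  induction n using Nat.twoStepInduction with
  | zero => simp [cont]
  | one =>
    rw [Matrix.det_fin_one, JacX.tri_apply, if_pos rfl]
    rfl
  | more n ih1 ih2 =>
    rw [JacX.det_tri, ih1, ih2]
    show _ = (X - C (a (n + 1))) * cont a _ (n + 1) - C (r n ^ 2) * cont a _ n
    rw [map_pow]
    ring

end Pool.Agent.H717.NL
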