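import Pool.Agent.H717.NL.Main
import Pool.Agent.H746.NL.Dft
import Pool.Agent.H170.NL.Mul
import Pool.Agent.H170.NL.Search
import Pool.Agent.H94.NL.Inv
import Pool.Agent.H155.NL.Mod
import Pool.Agent.H603.NL.PROD2
import Pool.Agent.H264.NL.Mpe
import Pool.Agent.H903.NL.Sort
import Pool.Agent.H187.NL.CharVal
import Pool.Agent.H717.NL.Jac
import Pool.Agent.H196.NL.Spec
import Pool.Agent.H665.NL.Interl
import Pool.Agent.H407.NL.Kyfan
import Pool.Agent.H553.NL.Second
import Pool.Agent.H249.NL.Weyl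
import Pool.Agent.H278.NL.Trunc
import Pool.Agent.H100.NL.Trans
import Pool.Agent.H331.NL.Pad
import Pool.Agent.H284.NL.Cluster

set_option autoImplicit false

namespace Pool.Agent.H717.NL

theorem hyps (hN : S_neg) (hE : S_charval → S_sort → S_interl → S_jac → S_spec → S_eig) :
    Hyps := by
  have hJ : S_jac := t_jac
  have hSp : S_spec := H196.NL.t_spec
  have hB : S_basis := H196.NL.t_basis
  have hM : S_mul := H170.NL.t_mul hN
  have hI : S_inv := H94.NL.t_inv hM
  have hMo : S_mod := H155.NL.t_mod hM hI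
  have hP2 : S_prod2 := H603.NL.t_prod2 hM
  have hMp : S_mpe := H264.NL.t_mpe hMo hP2
  have hC : S_charval := H187.NL.t_charval hP2 hMp
  have hInt : S_interl := H665.NL.t_interl hJ hB
  exact ⟨hE hC H903.NL.t_sort hInt hJ hSp, hJ, hSp, hB, H553.NL.t_second (H407.NL.t_kyfan hB),
    H249.NL.Weyl.t_weyl hB, t_cluster H278.NL.t_trunc, H170.NL.t_search, H100.NL.t_trans,
    H100.NL.t_bound, H331.NL.Pad.t_pad⟩

end Pool.Agent.H717.NL
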