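import Pool.Agent.H717.NL.Stmts2

set_option autoImplicit false

open Polynomial

namespace Pool.Agent.H717.NL

namespace Cmp

variable {α β γ : Type} [Vec α] [Vec β] [Vec γ]

theorem iterate {f : α → α} {c : ℕ} (hf : Cmp f c) (L : ℕ) : Cmp (f^[L]) (L * c) := by
  induction L with
  | zero => exact (Cmp.id (α := α)).mono (by omega)
  | succ L ih =>
    refine ((ih.comp hf).mono (by rw [Nat.succ_mul])).congr fun a => ?_
    rw [Function.iterate_succ_apply']

/-- the constant `2^J` -/
theorem two_pow (J : ℕ) : Cmp (fun _ : α => (2 : ℝ) ^ J) (J + 1) := by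
  induction J with
  | zero => exact (one.congr fun _ => by simp)
  | succ J ih =>
    have h : Cmp (fun p : α × ℝ => p.2 + p.2) 1 := ((snd.pair snd).comp add)
    refine ((ih.bind h).mono (by omega)).congr fun a => ?_
    simp only
    ring

/-- natural constants -/
theorem nat (m : ℕ) : Cmp (fun _ : α => (m : ℝ)) (4 * Nat.log 2 m + 4) := by
  induction m using Nat.strong_induction_on with
  | _ m ih =>
    rcases Nat.eq_zero_or_pos m with rfl | hm
    · exact (zero.congr fun _ => by simp).mono (by simp)
    · by_cases h1 : m = 1
      · subst h1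
        exact (one.congr fun _ => by simp).mono (by simp)
      · have h2 : m / 2 < m := Nat.div_lt_self hm (by omega)
        have h3 := ih (m / 2) h2
        have hlog : Nat.log 2 m = Nat.log 2 (m / 2) + 1 := by
          rw [Nat.log_div_base]
          have : 1 ≤ Nat.log 2 m := Nat.log_pos (by omega) (by omega)
          omega
        have hdd : Cmp (fun p : α × ℝ => p.2 + p.2) 1 := ((snd.pair snd).comp add)
        rcases Nat.mod_two_eq_zero_or_one m with h4 | h4
        · refine ((h3.bind hdd).mono (by omega)).congr fun a => ?_
          have : m = m / 2 + m / 2 := by omega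
          simp only
          conv_rhs => rw [this]
          push_cast
          ring
        · refine (((h3.bind hdd).add' one).mono (by omega)).congr fun a => ?_
          have : m = m / 2 + m / 2 + 1 := by omega
          simp only
          conv_rhs => rw [this]
          push_cast
          ring

end Cmp

/-- continuants depend only on the first entries -/
theorem cont_congr {a a' c c' : ℕ → ℝ} : ∀ (N : ℕ), (∀ j, j < N → a j = a' j) →
    (∀ j, j + 1 < N → c j = c' j) → cont a c N = cont a' c' N
  | 0, _, _ => rfl
  | 1, h, _ => by simp only [cont, h 0 (by omega)]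
  | (N + 2), h, h' => by
      simp only [cont]
      rw [h (N + 1) (by omega), h' N (by omega),
        cont_congr (N + 1) (fun j hj => h j (by omega)) (fun j hj => h' j (by omega)),
        cont_congr N (fun j hj => h j (by omega)) (fun j hj => h' j (by omega))]

theorem jac_isSymm (n : ℕ) (a r : ℕ → ℝ) : (jac n a r).IsSymm := by
  ext i j
  simp only [Matrix.transpose_apply, jac, Matrix.of_apply]
  by_cases h : (i : ℕ) = j
  · rw [if_pos h, if_pos h.symm, h]
  · rw [if_neg h, if_neg (fun e => h e.symm)]
    by_cases h1 : (i : ℕ) + 1 = j
    · rw [if_pos h1, if_neg (by omega), if_pos h1]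
    · rw [if_neg h1]
      by_cases h2 : (j : ℕ) + 1 = i
      · rw [if_pos h2, if_neg h1]
      · rw [if_neg h2, if_neg h1]

theorem jac_add (n : ℕ) (a r : ℕ → ℝ) (s : ℝ) :
    jac n (fun j => a j + s * ((j : ℝ) / n)) r = jac n a r + s • XX n := by
  ext i j
  simp only [jac, XX, Matrix.of_apply, Matrix.add_apply, Matrix.smul_apply,
    Matrix.diagonal_apply, smul_eq_mul]
  by_cases h : (i : ℕ) = j
  · have : i = j := Fin.ext h
    subst this
    simp
  · have h' : i ≠ j := fun e => h (by rw [e])
    rw [if_neg h, if_neg h, if_neg h']
    simp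

end Pool.Agent.H717.NL
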