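import Pool.Agent.H717.NL.Algo

set_option autoImplicit false

open Polynomial

namespace Pool.Agent.H717.NL

/-- The gap of a square complex matrix: the minimum of `|a - b|` over all pairs of eigenvalues
`a, b` taken from the list (multiset) of the eigenvalues with multiplicity. -/
noncomputable def gap {n : ℕ} (M : Matrix (Fin n) (Fin n) ℂ) : ℝ :=
  sInf {d : ℝ | ∃ a b : ℂ, ({a, b} : Multiset ℂ) ≤ M.charpoly.roots ∧ d = ‖a - b‖}

theorem le_gap {n : ℕ} (hn : 2 ≤ n) (M : Matrix (Fin n) (Fin n) ℂ) (l : Fin n → ℝ)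
    (hM : M.charpoly = (∏ i, (X - C (l i))).map (algebraMap ℝ ℂ)) (y : ℝ)
    (h : ∀ i j : Fin n, i ≠ j → y ≤ |l i - l j|) : y ≤ gap M := by
  have hroots : M.charpoly.roots = Multiset.map (fun i => ((l i : ℝ) : ℂ)) Finset.univ.val := by
    rw [hM, Polynomial.map_prod]
    have : ∀ i : Fin n, ((X - C (l i)).map (algebraMap ℝ ℂ)) = X - C ((l i : ℝ) : ℂ) := by
      intro i
      simp
    simp only [this]
    exact Polynomial.roots_multiset_prod_X_sub_C
      (Multiset.map (fun i => ((l i : ℝ) : ℂ)) Finset.univ.val) ▸ (by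
        rw [Multiset.map_map]
        rfl)
  unfold gap
  apply le_csInf
  · refine ⟨_, (l ⟨0, by omega⟩ : ℂ), (l ⟨1, by omega⟩ : ℂ), ?_, rfl⟩
    rw [hroots]
    have h1 : ({(⟨0, by omega⟩ : Fin n), ⟨1, by omega⟩} : Multiset (Fin n))
        ≤ (Finset.univ : Finset (Fin n)).val := by
      rw [Multiset.le_iff_subset (by
        rw [Multiset.insert_eq_cons, Multiset.nodup_cons]
        simp)]
      intro x _
      exact Finset.mem_univ x
    exact Multiset.map_le_map h1 (f := fun i => ((l i : ℝ) : ℂ))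
  · rintro d ⟨a, b, hab, rfl⟩
    rw [hroots] at hab
    have ha : a ∈ Multiset.map (fun i => ((l i : ℝ) : ℂ)) (Finset.univ : Finset (Fin n)).val :=
      Multiset.mem_of_le hab (by simp)
    obtain ⟨i, hi, rfl⟩ := Multiset.mem_map.1 ha
    have hs : (Finset.univ : Finset (Fin n)).val
        = i ::ₘ (Finset.univ : Finset (Fin n)).val.erase i := (Multiset.cons_erase hi).symm
    rw [hs, Multiset.map_cons, Multiset.insert_eq_cons, Multiset.cons_le_cons_iff,
      Multiset.singleton_le, Multiset.mem_map] at hab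
    obtain ⟨j, hj, rfl⟩ := hab
    have hne : j ≠ i := by
      intro hji
      rw [hji] at hj
      exact (Multiset.Nodup.notMem_erase (Finset.univ : Finset (Fin n)).nodup) hj
    have := h i j (Ne.symm hne)
    have e : ((l i : ℝ) : ℂ) - ((l j : ℝ) : ℂ) = ((l i - l j : ℝ) : ℂ) := by push_cast; rfl
    rw [e, Complex.norm_real, Real.norm_eq_abs]
    exact this

/-- the input data of a matrix -/
noncomputable def inp {n : ℕ} (A : Matrix (Fin n) (Fin n) ℂ) (δ : ℝ) : Inp n :=
  (δ, (fun j => (entry A j j).re, (fun j => (entry A j (j + 1)).re,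
    fun j => (entry A j (j + 1)).im)))

theorem entry_succ {n : ℕ} (A : Matrix (Fin n) (Fin n) ℂ) (j : ℕ) (h : n ≤ j + 1) :
    entry A j (j + 1) = 0 := by
  unfold entry
  rw [dif_neg (by omega)]

section

variable {n : ℕ} (A : Matrix (Fin n) (Fin n) ℂ) (δ : ℝ)

/-- diagonal -/
noncomputable def a0 (j : ℕ) : ℝ := (entry A j j).re

/-- squared off-diagonal -/
noncomputable def c0 (j : ℕ) : ℝ := (entry A j (j + 1)).re ^ 2 + (entry A j (j + 1)).im ^ 2

/-- real symmetric model -/
noncomputable def BB (x : ℝ) : Matrix (Fin n) (Fin n) ℝ :=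
  jac n (a0 A) (fun j => Real.sqrt (c0 A j)) + (x * δ) • XX n

theorem c0_nonneg (j : ℕ) : 0 ≤ c0 A j := by unfold c0; positivity

theorem BB_symm (x : ℝ) : (BB A δ x).IsSymm := by
  unfold BB
  rw [← jac_add]
  exact jac_isSymm _ _ _

theorem BB_charpoly (hJ : S_jac) (x : ℝ) : (BB A δ x).charpoly
    = cont (fun j => a0 A j + (x * δ) * ((j : ℝ) / n)) (c0 A) n := by
  unfold BB
  rw [← jac_add, hJ]
  congr 1
  funext j
  exact Real.sq_sqrt (c0_nonneg A j)

theorem charpoly_eq (hJ : S_jac) (hT : S_trans) (hA : A.IsHermitian) (hTr : IsTridiagonal A)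
    (x : ℝ) : (A + Matrix.diagonal fun j : Fin n => (((x * δ) * (((j : ℕ) : ℝ) / n) : ℝ) : ℂ)).charpoly
      = (BB A δ x).charpoly.map (algebraMap ℝ ℂ) := by
  rw [hT n A (fun j : Fin n => (x * δ) * (((j : ℕ) : ℝ) / n)) hA hTr, BB_charpoly A δ hJ]
  congr 1
  apply cont_congr
  · intro j hj
    simp only [a0, ext, hj, dite_true]
  · intro j hj
    rfl

theorem l_bound (hJ : S_jac) (hT : S_trans) (hBd : S_bound) (hA : A.IsHermitian)
    (hTr : IsTridiagonal A) (hδ : 0 < δ) (B : ℝ)
    (hB : open scoped Matrix.Norms.L2Operator in ‖A‖ ≤ B)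
    (x : ℝ) (hx0 : 0 ≤ x) (hx1 : x ≤ 1) (l : Fin n → ℝ) (hl : Spec (BB A δ x) l) (i : Fin n) :
    |l i| ≤ B + δ := by
  have h1 := hBd n A (fun j : Fin n => (x * δ) * (((j : ℕ) : ℝ) / n)) δ (l i) hδ.le (by
    intro j
    have hj : ((j : ℕ) : ℝ) / n ≤ 1 := by
      have : ((j : ℕ) : ℝ) < n := by exact_mod_cast j.2
      rw [div_le_one (by linarith [Nat.cast_nonneg (α := ℝ) (j : ℕ)])]
      exact this.le
    have hj0 : 0 ≤ ((j : ℕ) : ℝ) / n := by positivity
    rw [abs_of_nonneg (by positivity)]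
    calc x * δ * (((j : ℕ) : ℝ) / n) ≤ 1 * δ * 1 := by gcongr
      _ = δ := by ring) (by
    rw [charpoly_eq A δ hJ hT hA hTr x, hl.2]
    rw [Polynomial.IsRoot.def, Polynomial.eval_map]
    rw [Polynomial.eval₂_finsetProd]
    apply Finset.prod_eq_zero (Finset.mem_univ i)
    simp)
  exact h1.trans (by
    have := hB
    linarith)

/-- the padded list of eigenvalues -/
noncomputable def lP (N : ℕ) (l : Fin n → ℝ) (t : ℝ) : Fin N → ℝ :=
  fun i => if h : (i : ℕ) < n then l ⟨i, h⟩ else t

theorem lP_mono (N : ℕ) (l : Fin n → ℝ) (t : ℝ) (hl : Monotone l) (ht : ∀ i, l i ≤ t) :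
    Monotone (lP N l t) := by
  intro i j hij
  have hij' : (i : ℕ) ≤ j := hij
  unfold lP
  by_cases hj : (j : ℕ) < n
  · have hi : (i : ℕ) < n := lt_of_le_of_lt hij' hj
    simp only [hi, hj, dite_true]
    exact hl hij'
  · by_cases hi : (i : ℕ) < n
    · simp only [hi, hj, dite_true, dite_false]
      exact ht _
    · simp only [hi, hj, dite_false]
      exact le_rfl

theorem lP_prod (N : ℕ) (hN : n ≤ N) (l : Fin n → ℝ) (t : ℝ) :
    ∏ i, (X - C (lP N l t i)) = (∏ i, (X - C (l i))) * (X - C t) ^ (N - n) := by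
  obtain ⟨m, rfl⟩ := Nat.exists_eq_add_of_le hN
  have h1 : ∏ i : Fin (n + m), (X - C (lP (n + m) l t i))
      = ∏ j ∈ Finset.range (n + m), (X - C (if h : j < n then l ⟨j, h⟩ else t)) := by
    rw [Finset.prod_range]
    rfl
  have h2 : ∏ i : Fin n, (X - C (l i))
      = ∏ j ∈ Finset.range n, (X - C (if h : j < n then l ⟨j, h⟩ else t)) := by
    rw [Finset.prod_range]
    refine Finset.prod_congr rfl fun i _ => ?_
    simp only [i.2, dite_true]
  rw [h1, h2, Finset.prod_range_add]
  congr 1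
  rw [Nat.add_sub_cancel_left]
  have h3 : ∀ x ∈ Finset.range m,
      (X - C (if h : n + x < n then l ⟨n + x, h⟩ else t)) = X - C t := by
    intro x _
    rw [dif_neg (by omega)]
  rw [Finset.prod_congr rfl h3, Finset.prod_const, Finset.card_range]

theorem cont_pad (hP : S_pad) (N : ℕ) (hN : n ≤ N) (J : ℕ) (x : ℝ) :
    cont (ext (aPad n N (pre n J (inp A δ)) x)) (ext (cPad n N (pre n J (inp A δ)))) N
      = cont (fun j => a0 A j + (x * δ) * ((j : ℝ) / n)) (c0 A) n
        * (X - C (3 * ((2 ^ J + 1) * δ))) ^ (N - n) := by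
  obtain ⟨m, rfl⟩ := Nat.exists_eq_add_of_le hN
  rw [Nat.add_sub_cancel_left]
  have h1 : cont (ext (aPad n (n + m) (pre n J (inp A δ)) x))
        (ext (cPad n (n + m) (pre n J (inp A δ)))) (n + m)
      = cont (fun j => if j < n then a0 A j + (x * δ) * ((j : ℝ) / n)
          else 3 * ((2 ^ J + 1) * δ))
        (fun j => if j + 1 < n then c0 A j else 0) (n + m) := by
    apply cont_congr
    · intro j hj
      simp only [ext, hj, dite_true, aPad]
      by_cases h : j < n
      · simp only [h, dite_true, if_true, pre, inp, a0]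
        ring
      · simp only [h, dite_false, if_false, pre, inp]
    · intro j hj
      simp only [ext, show j < n + m by omega, dite_true, cPad]
      by_cases h : j + 1 < n
      · simp only [h, dite_true, if_true, pre, inp, c0]
        ring
      · simp only [h, dite_false, if_false]
  rw [h1, hP _ _ n m (3 * ((2 ^ J + 1) * δ))]
  · congr 1
    apply cont_congr
    · intro j hj
      simp only [hj, if_true]
    · intro j hj
      simp only [hj, if_true]
  · intro j hj
    simp only [show ¬ j < n by omega, if_false]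
  · intro j hj
    simp only [show ¬ j + 1 < n by omega, if_false]

end

end Pool.Agent.H717.NL
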