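import Pool.Agent.H717.NL.Final

set_option autoImplicit false

open Polynomial

namespace Pool.Agent.H717.NL

/-- the potential -/
theorem approx_pot {n k J J' : ℕ} (hn : n ≤ 2 ^ k - 1)
    (F : ((Fin (2 ^ k - 1) → ℝ) × (Fin (2 ^ k - 1) → ℝ)) × ℝ → (Fin (2 ^ k - 1) → ℝ))
    (hF : ∀ (a c : Fin (2 ^ k - 1) → ℝ) (H : ℝ), 0 < H → (∀ i, 0 ≤ c i) →
      ∀ l : Fin (2 ^ k - 1) → ℝ, Monotone l →
        cont (ext a) (ext c) (2 ^ k - 1) = ∏ i, (X - C (l i)) → (∀ i, |l i| ≤ H) →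
        ∀ i, |F ((a, c), H) i - l i| ≤ 4 ^ k * (2 * H / 2 ^ J'))
    (hJ : S_jac) (hT : S_trans) (hBd : S_bound) (hP : S_pad)
    (A : Matrix (Fin n) (Fin n) ℂ) (δ : ℝ) (hA : A.IsHermitian)
    (hTr : IsTridiagonal A) (hδ : 0 < δ)
    (hB : open scoped Matrix.Norms.L2Operator in ‖A‖ ≤ 2 ^ J * δ)
    (l : ℝ → Fin n → ℝ) (hl : ∀ x, Spec (BB A δ x) (l x)) (x : ℝ) (hx0 : 0 ≤ x) (hx1 : x ≤ 1) :
    |PsiA hn F (pre n J (inp A δ)) x - ∑ i : Fin n, ((i : ℕ) : ℝ) * l x i|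
      ≤ (n : ℝ) ^ 2 * (4 ^ k * (2 * (3 * ((2 ^ J + 1) * δ)) / 2 ^ J')) := by
  set H : ℝ := 3 * ((2 ^ J + 1) * δ) with hH
  have hH0 : 0 < H := by positivity
  have hlb : ∀ i, |l x i| ≤ (2 ^ J + 1) * δ := fun i =>
    (l_bound A δ hJ hT hBd hA hTr hδ _ hB x hx0 hx1 (l x) (hl x) i).trans (by linarith)
  have h1 := hF (aPad n (2 ^ k - 1) (pre n J (inp A δ)) x) (cPad n (2 ^ k - 1) (pre n J (inp A δ)))
    H hH0 (by
      intro i
      unfold cPad
      split_ifs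
      · simp only [pre, inp]
        nlinarith [mul_self_nonneg (entry A i (i + 1)).re, mul_self_nonneg (entry A i (i + 1)).im]
      · exact le_rfl) (lP (2 ^ k - 1) (l x) H)
    (lP_mono _ _ _ (hl x).1 fun i => by
      have := (abs_le.1 (hlb i)).2
      nlinarith [show 0 ≤ (2 ^ J + 1) * δ by positivity])
    (by
      rw [cont_pad A δ hP (2 ^ k - 1) hn J x, lP_prod _ hn, ← (hl x).2, BB_charpoly A δ hJ])
    (by
      intro i
      unfold lP
      split_ifs with h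
      · exact (hlb _).trans (by nlinarith [show 0 ≤ (2 ^ J + 1) * δ by positivity])
      · rw [abs_of_pos hH0])
  unfold PsiA
  have h2 : ∀ i : Fin n, (pre n J (inp A δ)).2.2 i = ((i : ℕ) : ℝ) := fun i => rfl
  have h3 : (pre n J (inp A δ)).1.1.2 = H := rfl
  rw [h3]
  simp only [h2]
  rw [← Finset.sum_sub_distrib]
  refine (Finset.abs_sum_le_sum_abs _ _).trans ?_
  have h4 : ∀ i ∈ (Finset.univ : Finset (Fin n)), |((i : ℕ) : ℝ) * F ((aPad n (2 ^ k - 1)
      (pre n J (inp A δ)) x, cPad n (2 ^ k - 1) (pre n J (inp A δ))), H) (Fin.castLE hn i)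
      - ((i : ℕ) : ℝ) * l x i| ≤ n * (4 ^ k * (2 * H / 2 ^ J')) := by
    intro i _
    rw [← mul_sub, abs_mul, abs_of_nonneg (by positivity : (0 : ℝ) ≤ ((i : ℕ) : ℝ))]
    have h5 := h1 (Fin.castLE hn i)
    have h6 : lP (2 ^ k - 1) (l x) H (Fin.castLE hn i) = l x i := by
      unfold lP
      simp
    rw [h6] at h5
    have h7 : ((i : ℕ) : ℝ) ≤ n := by exact_mod_cast i.2.le
    gcongr
  refine (Finset.sum_le_sum h4).trans ?_
  rw [Finset.sum_const, Finset.card_univ, Fintype.card_fin, nsmul_eq_mul]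
  apply le_of_eq
  ring

theorem spec_main {n k J : ℕ} (h2n : 2 ≤ n) (hn : n ≤ 2 ^ k - 1) (hk : 2 ^ k ≤ 2 * n)
    (F : ((Fin (2 ^ k - 1) → ℝ) × (Fin (2 ^ k - 1) → ℝ)) × ℝ → (Fin (2 ^ k - 1) → ℝ))
    (hF : ∀ (a c : Fin (2 ^ k - 1) → ℝ) (H : ℝ), 0 < H → (∀ i, 0 ≤ c i) →
      ∀ l : Fin (2 ^ k - 1) → ℝ, Monotone l →
        cont (ext a) (ext c) (2 ^ k - 1) = ∏ i, (X - C (l i)) → (∀ i, |l i| ≤ H) →
        ∀ i, |F ((a, c), H) i - l i| ≤ 4 ^ k * (2 * H / 2 ^ (12 * k + J + 26)))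
    (hJ : S_jac) (hT : S_trans) (hBd : S_bound) (hP : S_pad) (hS : S_spec) (hB : S_basis)
    (h2 : S_second) (hW : S_weyl) (hC : S_cluster) (hSe : S_search)
    (A : Matrix (Fin n) (Fin n) ℂ) (δ : ℝ) (hA : A.IsHermitian)
    (hTr : IsTridiagonal A) (hδ : 0 < δ)
    (hBA : open scoped Matrix.Norms.L2Operator in ‖A‖ ≤ 2 ^ J * δ) :
    (∀ j, |algo hn F J (5 * k + 9) (inp A δ) j| ≤ 1) ∧
    δ / (40000000000 * (n : ℝ) ^ 11)
      ≤ gap (A + (δ : ℂ) • Matrix.diagonal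
          fun j => ((algo hn F J (5 * k + 9) (inp A δ) j : ℝ) : ℂ)) := by
  have hnpos : (0 : ℝ) < n := by exact_mod_cast (by omega : 0 < n)
  choose l hl using fun x => hS n (BB A δ x) (BB_symm A δ x)
  set g : ℝ → ℝ := fun x => ∑ i : Fin n, ((i : ℕ) : ℝ) * l x i with hg
  set f : ℝ → ℝ := PsiA hn F (pre n J (inp A δ)) with hf
  set τ : ℝ := (n : ℝ) ^ 2 * (4 ^ k * (2 * (3 * ((2 ^ J + 1) * δ)) / 2 ^ (12 * k + J + 26))) with hτ
  have hτ0 : 0 ≤ τ := by positivity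
  have hfg : ∀ x, 0 ≤ x → x ≤ 1 → |f x - g x| ≤ τ := fun x hx0 hx1 =>
    approx_pot hn F hF hJ hT hBd hP A δ hA hTr hδ hBA l hl x hx0 hx1
  obtain ⟨s1, s2, s3, s4⟩ := hSe f g τ hτ0 hfg (5 * k + 9)
  set m : ℝ := ((round f)^[5 * k + 9] (1 / 2, 1 / 2)).1 with hm
  set h : ℝ := ((round f)^[5 * k + 9] (1 / 2, 1 / 2)).2 with hh
  have hh0 : 0 < h := by rw [s1]; positivity
  have hm0 : 0 ≤ m := by linarith
  have hm1 : m ≤ 1 := by linarith
  have halgo : ∀ j : Fin n, algo hn F J (5 * k + 9) (inp A δ) j = m * (((j : ℕ) : ℝ) / n) :=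
    fun j => rfl
  have hjn : ∀ j : Fin n, ((j : ℕ) : ℝ) / n ≤ 1 := by
    intro j
    rw [div_le_one hnpos]
    exact_mod_cast j.2.le
  refine ⟨fun j => ?_, ?_⟩
  · rw [halgo, abs_of_nonneg (by positivity)]
    have h0 : 0 ≤ ((j : ℕ) : ℝ) / n := by positivity
    nlinarith [hjn j]
  -- the second difference at the end
  set P : ℝ := (2 : ℝ) ^ k with hPdef
  have hP0 : 0 < P := by positivity
  have hnP : (n : ℝ) ≤ P := by
    have h1 : n ≤ 2 ^ k := by omega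
    rw [hPdef]
    exact_mod_cast h1
  have hP2 : P ≤ 2 * n := by
    rw [hPdef]
    exact_mod_cast hk
  have e2L : (2 : ℝ) ^ (5 * k + 9) = 512 * P ^ 5 := by
    rw [pow_add, mul_comm 5 k, pow_mul]
    norm_num
    ring
  have e2L1 : (2 : ℝ) ^ (5 * k + 9 + 1) = 1024 * P ^ 5 := by
    rw [pow_succ, e2L]
    ring
  have e4L : (4 : ℝ) ^ (5 * k + 9) = 262144 * P ^ 10 := by
    have : (4 : ℝ) = 2 ^ 2 := by norm_num
    rw [this, ← pow_mul, mul_comm 2, pow_mul, e2L]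
    ring
  have e2J : (2 : ℝ) ^ (12 * k + J + 26) = P ^ 12 * 2 ^ J * 67108864 := by
    rw [pow_add, pow_add, mul_comm 12 k, pow_mul, ← hPdef]
    norm_num
  have e4k : (4 : ℝ) ^ k = P ^ 2 := by
    have : (4 : ℝ) = 2 ^ 2 := by norm_num
    rw [this, ← pow_mul, mul_comm 2, pow_mul]
  have hstart : sd g (1 / 2) (1 / 2) ≤ (n : ℝ) ^ 2 * δ := by
    have w1 := hW n (BB A δ (1 / 2)) (fun p : Fin n => ((p : ℕ) : ℝ) / n) (δ / 2) (l (1 / 2)) (l 1)
      (BB_symm A δ _) (fun i => by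
        rw [abs_of_nonneg (by positivity)]
        exact hjn i) (hl _) (by
        have : BB A δ 1 = BB A δ (1 / 2) + (δ / 2) • Matrix.diagonal
            (fun p : Fin n => ((p : ℕ) : ℝ) / n) := by
          unfold BB XX
          rw [add_assoc, ← add_smul]
          congr 2
          ring
        rw [← this]
        exact hl 1)
    have w2 := hW n (BB A δ (1 / 2)) (fun p : Fin n => ((p : ℕ) : ℝ) / n) (-(δ / 2)) (l (1 / 2))
      (l 0) (BB_symm A δ _) (fun i => by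
        rw [abs_of_nonneg (by positivity)]
        exact hjn i) (hl _) (by
        have : BB A δ 0 = BB A δ (1 / 2) + (-(δ / 2)) • Matrix.diagonal
            (fun p : Fin n => ((p : ℕ) : ℝ) / n) := by
          unfold BB XX
          rw [add_assoc, ← add_smul]
          congr 2
          ring
        rw [← this]
        exact hl 0)
    have e1 : sd g (1 / 2) (1 / 2)
        = ∑ i : Fin n, ((i : ℕ) : ℝ) * ((l 1 i - l (1 / 2) i) + (l 0 i - l (1 / 2) i)) := by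
      unfold sd
      rw [show (1 / 2 + 1 / 2 : ℝ) = 1 by norm_num, show (1 / 2 - 1 / 2 : ℝ) = 0 by norm_num]
      simp only [hg]
      rw [Finset.mul_sum, ← Finset.sum_add_distrib, ← Finset.sum_sub_distrib]
      refine Finset.sum_congr rfl fun i _ => ?_
      ring
    rw [e1]
    have e3 : ∀ i ∈ (Finset.univ : Finset (Fin n)),
        ((i : ℕ) : ℝ) * ((l 1 i - l (1 / 2) i) + (l 0 i - l (1 / 2) i)) ≤ n * δ := by
      intro i _
      have q1 := (abs_le.1 (w1 i)).2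
      have q2 := (abs_le.1 (w2 i)).2
      rw [abs_of_pos (by positivity : 0 < δ / 2)] at q1
      rw [abs_neg, abs_of_pos (by positivity : 0 < δ / 2)] at q2
      have q3 : ((i : ℕ) : ℝ) ≤ n := by exact_mod_cast i.2.le
      have q4 : (0 : ℝ) ≤ ((i : ℕ) : ℝ) := by positivity
      nlinarith
    refine (Finset.sum_le_sum e3).trans ?_
    rw [Finset.sum_const, Finset.card_univ, Fintype.card_fin, nsmul_eq_mul]
    apply le_of_eq
    ring
  set w : ℝ := h * δ with hw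
  have hw0 : 0 < w := by positivity
  have hwval : w = δ / (1024 * P ^ 5) := by
    rw [hw, s1, e2L1]
    ring
  have hfin : sd g m h ≤ w / (96 * (n : ℝ) ^ 3) := by
    refine s4.trans ?_
    have k1 : sd g (1 / 2) (1 / 2) / 4 ^ (5 * k + 9) ≤ δ / (196608 * P ^ 5 * (n : ℝ) ^ 3) := by
      rw [e4L, div_le_div_iff₀ (by positivity) (by positivity)]
      have k2 : (n : ℝ) ^ 5 ≤ P ^ 5 := by gcongr
      calc sd g (1 / 2) (1 / 2) * (196608 * P ^ 5 * (n : ℝ) ^ 3)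
          ≤ ((n : ℝ) ^ 2 * δ) * (196608 * P ^ 5 * (n : ℝ) ^ 3) := by gcongr
        _ = 196608 * δ * P ^ 5 * (n : ℝ) ^ 5 := by ring
        _ ≤ 196608 * δ * P ^ 5 * P ^ 5 := by gcongr
        _ = 196608 * (δ * P ^ 10) := by ring
        _ ≤ 262144 * (δ * P ^ 10) := by
            have : 0 ≤ δ * P ^ 10 := by positivity
            linarith
        _ = δ * (262144 * P ^ 10) := by ring
    have k3 : 11 * τ ≤ δ / (196608 * P ^ 5 * (n : ℝ) ^ 3) := by
      have hJ1 : (1 : ℝ) ≤ 2 ^ J := one_le_pow₀ (by norm_num)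
      rw [hτ, e2J, e4k]
      have k4 : 11 * ((n : ℝ) ^ 2 * (P ^ 2 * (2 * (3 * ((2 ^ J + 1) * δ))
          / (P ^ 12 * 2 ^ J * 67108864))))
          = (66 * (n : ℝ) ^ 2 * P ^ 2 * (2 ^ J + 1) * δ) / (P ^ 12 * 2 ^ J * 67108864) := by
        ring
      rw [k4, div_le_div_iff₀ (by positivity) (by positivity)]
      have k2 : (n : ℝ) ^ 5 ≤ P ^ 5 := by gcongr
      calc 66 * (n : ℝ) ^ 2 * P ^ 2 * (2 ^ J + 1) * δ * (196608 * P ^ 5 * (n : ℝ) ^ 3)
          = 66 * 196608 * δ * P ^ 7 * (2 ^ J + 1) * (n : ℝ) ^ 5 := by ring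
        _ ≤ 66 * 196608 * δ * P ^ 7 * (2 ^ J + 2 ^ J) * P ^ 5 := by gcongr
        _ = 25952256 * (δ * (P ^ 12 * 2 ^ J)) := by ring
        _ ≤ 67108864 * (δ * (P ^ 12 * 2 ^ J)) := by
            have : 0 ≤ δ * (P ^ 12 * 2 ^ J) := by positivity
            linarith
        _ = δ * (P ^ 12 * 2 ^ J * 67108864) := by ring
    refine (add_le_add k1 k3).trans (le_of_eq ?_)
    rw [hwval]
    field_simp
    norm_num
  -- apply the cluster lemma
  obtain ⟨u, hu1, hu2⟩ := hB n (BB A δ m) (l m) (BB_symm A δ m) (hl m)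
  have hX : (XX n).IsSymm := by unfold XX; exact Matrix.isSymm_diagonal _
  have ep : BB A δ m + w • XX n = BB A δ (m + h) := by
    unfold BB
    rw [add_assoc, ← add_smul, hw]
    congr 2
    ring
  have em : BB A δ m - w • XX n = BB A δ (m - h) := by
    unfold BB
    rw [add_sub_assoc, ← sub_smul, hw]
    congr 2
    ring
  obtain ⟨_, h3⟩ := h2 n (BB A δ m) (XX n) w (l m) (l (m + h)) (l (m - h)) u (BB_symm A δ m) hX hw0
    (hl m) (by rw [ep]; exact hl _) (by rw [em]; exact hl _) hu1 hu2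
  have esd : ∑ i : Fin n, ((i : ℕ) : ℝ) * (l (m + h) i + l (m - h) i - 2 * l m i) = sd g m h := by
    unfold sd
    simp only [hg]
    rw [Finset.mul_sum, ← Finset.sum_add_distrib, ← Finset.sum_sub_distrib]
    refine Finset.sum_congr rfl fun i _ => ?_
    ring
  rw [esd] at h3
  have ej : BB A δ m = jac n (fun j => a0 A j + (m * δ) * ((j : ℝ) / n))
      (fun j => Real.sqrt (c0 A j)) := by
    unfold BB
    rw [← jac_add]
  have hcl := hC n _ _ w (l m) u h2n hw0 (hl m).1 hu1 (by rw [ej] at hu2; exact hu2)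
    (fun i j hij => ((h3 i j hij).1).trans hfin) (fun i j hij => ((h3 i j hij).2).trans hfin)
  have hmat : A + (δ : ℂ) • Matrix.diagonal
      (fun j => ((algo hn F J (5 * k + 9) (inp A δ) j : ℝ) : ℂ))
      = A + Matrix.diagonal (fun j : Fin n => (((m * δ) * (((j : ℕ) : ℝ) / n) : ℝ) : ℂ)) := by
    congr 1
    rw [← Matrix.diagonal_smul]
    congr 1
    funext j
    simp only [Pi.smul_apply, smul_eq_mul, halgo]
    push_cast
    ring
  rw [hmat]
  apply le_gap h2n _ (l m)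
  · rw [charpoly_eq A δ hJ hT hA hTr m, (hl m).2]
  · intro i j hij
    have hbase : δ / (40000000000 * (n : ℝ) ^ 11) ≤ w / (1000000 * (n : ℝ) ^ 6) := by
      rw [hwval, div_div, div_le_div_iff_of_pos_left hδ (by positivity) (by positivity)]
      have k2 : P ^ 5 ≤ (2 * n) ^ 5 := by gcongr
      calc 1024 * P ^ 5 * (1000000 * (n : ℝ) ^ 6) ≤ 1024 * (2 * n) ^ 5 * (1000000 * (n : ℝ) ^ 6) := by
            gcongr
        _ = 32768000000 * (n : ℝ) ^ 11 := by ring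
        _ ≤ 40000000000 * (n : ℝ) ^ 11 := by
            have : 0 ≤ (n : ℝ) ^ 11 := by positivity
            linarith
    rcases lt_or_gt_of_ne hij with h4 | h4
    · have := hcl i j h4
      rw [abs_sub_comm]
      exact (hbase.trans this).trans (le_abs_self _)
    · have := hcl j i h4
      exact (hbase.trans this).trans (le_abs_self _)

/-- All the statements used. -/
structure Hyps : Prop where
  eig : S_eig
  jac : S_jac
  spec : S_spec
  basis : S_basis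
  second : S_second
  weyl : S_weyl
  cluster : S_cluster
  search : S_search
  trans : S_trans
  bound : S_bound
  pad : S_pad

theorem cost_arith (K n lg J k : ℕ) (hn : 2 ≤ n) (hlg : 1 ≤ lg) (hk : k = lg + 1)
    (h2k : 2 ^ k ≤ 2 * n) :
    J + 50 + (2 ^ k - 1) * (16 * lg + 21) + (5 * k + 9) * (12 * (K * 2 ^ k * (k + 1) ^ 6
      * (12 * k + J + 26 + 1) + 8 * (2 ^ k - 1) + 3) + 120)
      ≤ (2000000 * K + 20000) * n * (lg + J + 1) ^ 8 := by
  set q := lg + J + 1 with hq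
  have hq2 : 2 ≤ q := by omega
  have h1 : k + 1 ≤ 2 * q := by omega
  have h2 : 12 * k + J + 26 + 1 ≤ 40 * q := by omega
  have h3 : 5 * k + 9 ≤ 14 * q := by omega
  have h4 : 2 ^ k - 1 ≤ 2 * n := by omega
  have h5 : 16 * lg + 21 ≤ 37 * q := by omega
  have h6 : K * 2 ^ k * (k + 1) ^ 6 * (12 * k + J + 26 + 1)
      ≤ K * (2 * n) * (2 * q) ^ 6 * (40 * q) := by gcongr
  have h7 : q ≤ q ^ 8 := Nat.le_self_pow (by norm_num) q
  have h8 : q ^ 2 ≤ q ^ 8 := Nat.pow_le_pow_right (by omega) (by norm_num)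
  calc J + 50 + (2 ^ k - 1) * (16 * lg + 21) + (5 * k + 9) * (12 * (K * 2 ^ k * (k + 1) ^ 6
      * (12 * k + J + 26 + 1) + 8 * (2 ^ k - 1) + 3) + 120)
      ≤ 50 * q + (2 * n) * (37 * q) + (14 * q) * (12 * (K * (2 * n) * (2 * q) ^ 6 * (40 * q)
        + 8 * (2 * n) + 3) + 120) := by
        have : J + 50 ≤ 50 * q := by omega
        gcongr
    _ = 860160 * K * n * q ^ 8 + (74 * n + 50 + 2688 * n + 504 + 1680) * q := by ring
    _ ≤ 860160 * K * n * q ^ 8 + (20000 * n) * q ^ 8 := by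
        have : 74 * n + 50 + 2688 * n + 504 + 1680 ≤ 20000 * n := by omega
        gcongr
    _ ≤ (2000000 * K + 20000) * n * q ^ 8 := by
        have : 0 ≤ K * n * q ^ 8 := Nat.zero_le _
        nlinarith

theorem main (H : Hyps) : ∃ K : ℕ, ∀ n J : ℕ, 2 ≤ n → ∃ G : Inp n → (Fin n → ℝ),
    Cmp G (K * n * (Nat.log 2 n + J + 1) ^ 8) ∧
    ∀ (A : Matrix (Fin n) (Fin n) ℂ) (δ : ℝ), A.IsHermitian → IsTridiagonal A → 0 < δ →
      (open scoped Matrix.Norms.L2Operator in ‖A‖ ≤ 2 ^ J * δ) →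
      (∀ j, |G (inp A δ) j| ≤ 1) ∧
      δ / (40000000000 * (n : ℝ) ^ 11)
        ≤ gap (A + (δ : ℂ) • Matrix.diagonal fun j => ((G (inp A δ) j : ℝ) : ℂ)) := by
  obtain ⟨K, hK⟩ := H.eig
  refine ⟨2000000 * K + 20000, fun n J hn => ?_⟩
  set lg := Nat.log 2 n with hlg
  have hlg1 : 1 ≤ lg := Nat.log_pos (by omega) hn
  have hlt : n < 2 ^ (lg + 1) := Nat.lt_pow_succ_log_self (by omega) n
  have hle : 2 ^ lg ≤ n := Nat.pow_log_le_self 2 (by omega)
  have h2k : 2 ^ (lg + 1) ≤ 2 * n := by rw [pow_succ]; omega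
  have hN : n ≤ 2 ^ (lg + 1) - 1 := by omega
  obtain ⟨F, hF1, hF2⟩ := hK (lg + 1) (12 * (lg + 1) + J + 26)
  refine ⟨algo hN F J (5 * (lg + 1) + 9), ?_, fun A δ hA hT hδ hB => ?_⟩
  · exact (cmp_algo hN F _ hF1 J (5 * (lg + 1) + 9)).mono
      (cost_arith K n lg J (lg + 1) hn hlg1 rfl h2k)
  · exact spec_main hn hN h2k F hF2 H.jac H.trans H.bound H.pad H.spec H.basis H.second H.weyl
      H.cluster H.search A δ hA hT hδ hB

end Pool.Agent.H717.NL
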