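import Mathlib

set_option autoImplicit false

/-!
# Algebraic computation trees over the reals

`Tree ι κ` is the type of algebraic computation trees with input registers indexed by `ι` and output
positions indexed by `κ`.  Along a path of the tree the machine loads the constant `1`, performs the
operations `+, -, *, /` on exact real numbers (the result is put into a new register), tests
`0 ≤ x` for a register `x`, and finally selects the output among the registers.  Every instruction
except the final selection costs one unit; `Tree.depth` is the largest cost along a path.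
-/

namespace Pool.Agent.H717.NL

/-- Algebraic computation trees. -/
inductive Tree (κ : Type) : Type → Type 1
  | out {ι : Type} (o : κ → ι) : Tree κ ι
  | one {ι : Type} (t : Tree κ (Option ι)) : Tree κ ι
  | add {ι : Type} (i j : ι) (t : Tree κ (Option ι)) : Tree κ ι
  | sub {ι : Type} (i j : ι) (t : Tree κ (Option ι)) : Tree κ ι
  | mul {ι : Type} (i j : ι) (t : Tree κ (Option ι)) : Tree κ ι
  | div {ι : Type} (i j : ι) (t : Tree κ (Option ι)) : Tree κ ι
  | test {ι : Type} (i : ι) (s t : Tree κ ι) : Tree κ ι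

/-- Put the number `r` into the new register. -/
def push {ι : Type} (x : ι → ℝ) (r : ℝ) : Option ι → ℝ := fun o => o.elim r x

/-- The function computed by a tree. -/
noncomputable def Tree.eval {κ : Type} : {ι : Type} → Tree κ ι → (ι → ℝ) → (κ → ℝ)
  | _, .out o, x => fun k => x (o k)
  | _, .one t, x => t.eval (push x 1)
  | _, .add i j t, x => t.eval (push x (x i + x j))
  | _, .sub i j t, x => t.eval (push x (x i - x j))
  | _, .mul i j t, x => t.eval (push x (x i * x j))
  | _, .div i j t, x => t.eval (push x (x i / x j))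
  | _, .test i s t, x => if 0 ≤ x i then s.eval x else t.eval x

/-- The largest number of operations and tests along a path. -/
def Tree.depth {κ : Type} : {ι : Type} → Tree κ ι → ℕ
  | _, .out _ => 0
  | _, .one t => t.depth + 1
  | _, .add _ _ t => t.depth + 1
  | _, .sub _ _ t => t.depth + 1
  | _, .mul _ _ t => t.depth + 1
  | _, .div _ _ t => t.depth + 1
  | _, .test _ s t => max s.depth t.depth + 1

/-- Renaming of the registers. -/
def Tree.rename {κ : Type} : {ι ι' : Type} → (ι → ι') → Tree κ ι → Tree κ ι'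
  | _, _, σ, .out o => .out (σ ∘ o)
  | _, _, σ, .one t => .one (t.rename (Option.map σ))
  | _, _, σ, .add i j t => .add (σ i) (σ j) (t.rename (Option.map σ))
  | _, _, σ, .sub i j t => .sub (σ i) (σ j) (t.rename (Option.map σ))
  | _, _, σ, .mul i j t => .mul (σ i) (σ j) (t.rename (Option.map σ))
  | _, _, σ, .div i j t => .div (σ i) (σ j) (t.rename (Option.map σ))
  | _, _, σ, .test i s t => .test (σ i) (s.rename σ) (t.rename σ)

theorem push_map {ι ι' : Type} (σ : ι → ι') (x : ι' → ℝ) (r : ℝ) :
    push x r ∘ Option.map σ = push (x ∘ σ) r := by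
  funext o
  cases o <;> rfl

theorem Tree.eval_rename {κ : Type} : ∀ {ι ι' : Type} (σ : ι → ι') (t : Tree κ ι) (x : ι' → ℝ),
    (t.rename σ).eval x = t.eval (x ∘ σ)
  | _, _, σ, .out o, x => rfl
  | _, _, σ, .one t, x => by
      simp only [Tree.rename, Tree.eval, Tree.eval_rename, push_map]
  | _, _, σ, .add i j t, x => by
      simp only [Tree.rename, Tree.eval, Tree.eval_rename, push_map, Function.comp]
  | _, _, σ, .sub i j t, x => by
      simp only [Tree.rename, Tree.eval, Tree.eval_rename, push_map, Function.comp]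
  | _, _, σ, .mul i j t, x => by
      simp only [Tree.rename, Tree.eval, Tree.eval_rename, push_map, Function.comp]
  | _, _, σ, .div i j t, x => by
      simp only [Tree.rename, Tree.eval, Tree.eval_rename, push_map, Function.comp]
  | _, _, σ, .test i s t, x => by
      simp only [Tree.rename, Tree.eval, Tree.eval_rename, Function.comp]

theorem Tree.depth_rename {κ : Type} : ∀ {ι ι' : Type} (σ : ι → ι') (t : Tree κ ι),
    (t.rename σ).depth = t.depth
  | _, _, σ, .out o => rfl
  | _, _, σ, .one t => by simp only [Tree.rename, Tree.depth, Tree.depth_rename]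
  | _, _, σ, .add i j t => by simp only [Tree.rename, Tree.depth, Tree.depth_rename]
  | _, _, σ, .sub i j t => by simp only [Tree.rename, Tree.depth, Tree.depth_rename]
  | _, _, σ, .mul i j t => by simp only [Tree.rename, Tree.depth, Tree.depth_rename]
  | _, _, σ, .div i j t => by simp only [Tree.rename, Tree.depth, Tree.depth_rename]
  | _, _, σ, .test i s t => by simp only [Tree.rename, Tree.depth, Tree.depth_rename]

/-- Run `t`, then run `s` on (old registers, outputs of `t`). -/
def Tree.graft {κ μ ι₀ : Type} : {ι : Type} → (ι₀ → ι) → Tree κ ι → Tree μ (ι₀ ⊕ κ) → Tree μ ι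
  | _, e, .out o, s => s.rename (Sum.elim e o)
  | _, e, .one t, s => .one (t.graft (some ∘ e) s)
  | _, e, .add i j t, s => .add i j (t.graft (some ∘ e) s)
  | _, e, .sub i j t, s => .sub i j (t.graft (some ∘ e) s)
  | _, e, .mul i j t, s => .mul i j (t.graft (some ∘ e) s)
  | _, e, .div i j t, s => .div i j (t.graft (some ∘ e) s)
  | _, e, .test i t t', s => .test i (t.graft e s) (t'.graft e s)

theorem push_some {ι₀ ι : Type} (e : ι₀ → ι) (x : ι → ℝ) (r : ℝ) :
    push x r ∘ (some ∘ e) = x ∘ e := rfl

theorem Tree.eval_graft {κ μ ι₀ : Type} : ∀ {ι : Type} (e : ι₀ → ι) (t : Tree κ ι)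
    (s : Tree μ (ι₀ ⊕ κ)) (x : ι → ℝ),
    (t.graft e s).eval x = s.eval (Sum.elim (x ∘ e) (t.eval x))
  | _, e, .out o, s, x => by
      simp only [Tree.graft, Tree.eval, Tree.eval_rename]
      congr 1
      funext a
      cases a <;> rfl
  | _, e, .one t, s, x => by simp only [Tree.graft, Tree.eval, Tree.eval_graft, push_some]
  | _, e, .add i j t, s, x => by simp only [Tree.graft, Tree.eval, Tree.eval_graft, push_some]
  | _, e, .sub i j t, s, x => by simp only [Tree.graft, Tree.eval, Tree.eval_graft, push_some]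
  | _, e, .mul i j t, s, x => by simp only [Tree.graft, Tree.eval, Tree.eval_graft, push_some]
  | _, e, .div i j t, s, x => by simp only [Tree.graft, Tree.eval, Tree.eval_graft, push_some]
  | _, e, .test i t t', s, x => by
      simp only [Tree.graft, Tree.eval, Tree.eval_graft]
      split_ifs <;> rfl

theorem Tree.depth_graft {κ μ ι₀ : Type} : ∀ {ι : Type} (e : ι₀ → ι) (t : Tree κ ι)
    (s : Tree μ (ι₀ ⊕ κ)), (t.graft e s).depth ≤ t.depth + s.depth
  | _, e, .out o, s => by simp only [Tree.graft, Tree.depth, Tree.depth_rename]; omega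
  | _, e, .one t, s => by
      have := Tree.depth_graft (some ∘ e) t s
      simp only [Tree.graft, Tree.depth]; omega
  | _, e, .add i j t, s => by
      have := Tree.depth_graft (some ∘ e) t s
      simp only [Tree.graft, Tree.depth]; omega
  | _, e, .sub i j t, s => by
      have := Tree.depth_graft (some ∘ e) t s
      simp only [Tree.graft, Tree.depth]; omega
  | _, e, .mul i j t, s => by
      have := Tree.depth_graft (some ∘ e) t s
      simp only [Tree.graft, Tree.depth]; omega
  | _, e, .div i j t, s => by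
      have := Tree.depth_graft (some ∘ e) t s
      simp only [Tree.graft, Tree.depth]; omega
  | _, e, .test i t t', s => by
      have h1 := Tree.depth_graft e t s
      have h2 := Tree.depth_graft e t' s
      simp only [Tree.graft, Tree.depth]; omega

/-- Types of tuples of real numbers. -/
class Vec (α : Type) where
  /-- the index set of the real components -/
  idx : Type
  /-- the components -/
  enc : α → idx → ℝ

open Vec

instance : Vec ℝ := ⟨Unit, fun r _ => r⟩
instance : Vec Unit := ⟨Empty, fun _ e => e.elim⟩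
instance {α β : Type} [Vec α] [Vec β] : Vec (α × β) :=
  ⟨idx α ⊕ idx β, fun p => Sum.elim (enc p.1) (enc p.2)⟩
instance {ι α : Type} [Vec α] : Vec (ι → α) := ⟨ι × idx α, fun f p => enc (f p.1) p.2⟩

/-- `Cmp f c`: the function `f` between tuples of reals is computed by an algebraic computation
tree performing at most `c` operations and tests on every input. -/
def Cmp {α β : Type} [Vec α] [Vec β] (f : α → β) (c : ℕ) : Prop :=
  ∃ T : Tree (idx β) (idx α), T.depth ≤ c ∧ ∀ a, T.eval (enc a) = enc (f a)

namespace Cmp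

variable {α β γ δ' : Type} [Vec α] [Vec β] [Vec γ] [Vec δ']

theorem mono {f : α → β} {c d : ℕ} (h : Cmp f c) (hcd : c ≤ d) : Cmp f d := by
  obtain ⟨T, h1, h2⟩ := h
  exact ⟨T, h1.trans hcd, h2⟩

theorem congr {f g : α → β} {c : ℕ} (h : Cmp f c) (hfg : ∀ a, f a = g a) : Cmp g c := by
  have : f = g := funext hfg
  rwa [← this]

/-- A function that only selects, permutes or duplicates the components is free. -/
theorem free {f : α → β} (σ : idx β → idx α) (h : ∀ a j, enc (f a) j = enc a (σ j)) :
    Cmp f 0 :=
  ⟨.out σ, le_rfl, fun a => by funext j; exact (h a j).symm⟩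

theorem id : Cmp (fun a : α => a) 0 := free (fun j => j) fun _ _ => rfl

theorem fst : Cmp (fun p : α × β => p.1) 0 := free Sum.inl fun _ _ => rfl

theorem snd : Cmp (fun p : α × β => p.2) 0 := free Sum.inr fun _ _ => rfl

/-- The basic rule: compute `f a`, then compute `g` from `a` and `f a`. -/
theorem bind {f : α → β} {g : α × β → γ} {c d : ℕ} (hf : Cmp f c) (hg : Cmp g d) :
    Cmp (fun a => g (a, f a)) (c + d) := by
  obtain ⟨T, h1, h2⟩ := hf
  obtain ⟨S, h3, h4⟩ := hg
  refine ⟨T.graft (fun i => i) S, (Tree.depth_graft _ _ _).trans (by omega), fun a => ?_⟩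
  rw [Tree.eval_graft, h2]
  exact h4 (a, f a)

theorem comp {f : α → β} {g : β → γ} {c d : ℕ} (hf : Cmp f c) (hg : Cmp g d) :
    Cmp (fun a => g (f a)) (c + d) := by
  have h : Cmp (fun p : α × β => g p.2) d := by
    obtain ⟨S, h3, h4⟩ := hg
    exact ⟨S.rename Sum.inr, by rw [Tree.depth_rename]; exact h3, fun p => by
      rw [Tree.eval_rename]; exact h4 p.2⟩
  exact hf.bind h

/-- Functions of a part of the data. -/
theorem on {f : α → β} {g : β → γ} {d : ℕ} (hf : Cmp f 0) (hg : Cmp g d) :
    Cmp (fun a => g (f a)) d := (hf.comp hg).mono (by omega)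

theorem pair {f : α → β} {g : α → γ} {c d : ℕ} (hf : Cmp f c) (hg : Cmp g d) :
    Cmp (fun a => (f a, g a)) (c + d) := by
  have h1 : Cmp (fun p : α × β => g p.1) d := fst.on hg
  have h2 : Cmp (fun q : (α × β) × γ => (q.1.2, q.2)) 0 :=
    free (Sum.elim (fun j => Sum.inl (Sum.inr j)) fun j => Sum.inr j)
      (fun q j => by cases j <;> rfl)
  exact (hf.bind (h1.bind h2)).mono (by omega)

/-- Selection and permutation of the entries of a vector. -/
theorem reindex {ι κ : Type} (σ : κ → ι) : Cmp (fun v : ι → α => fun k => v (σ k)) 0 :=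
  free (fun p => (σ p.1, p.2)) fun _ _ => rfl

theorem proj {ι : Type} (i : ι) : Cmp (fun v : ι → α => v i) 0 :=
  free (fun j => (i, j)) fun _ _ => rfl

theorem one : Cmp (fun _ : α => (1 : ℝ)) 1 :=
  ⟨.one (.out fun _ => none), le_rfl, fun _ => rfl⟩

theorem add : Cmp (fun p : ℝ × ℝ => p.1 + p.2) 1 :=
  ⟨.add (Sum.inl ()) (Sum.inr ()) (.out fun _ => none), le_rfl, fun _ => rfl⟩

theorem sub : Cmp (fun p : ℝ × ℝ => p.1 - p.2) 1 :=
  ⟨.sub (Sum.inl ()) (Sum.inr ()) (.out fun _ => none), le_rfl, fun _ => rfl⟩

theorem mul : Cmp (fun p : ℝ × ℝ => p.1 * p.2) 1 :=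
  ⟨.mul (Sum.inl ()) (Sum.inr ()) (.out fun _ => none), le_rfl, fun _ => rfl⟩

theorem div : Cmp (fun p : ℝ × ℝ => p.1 / p.2) 1 :=
  ⟨.div (Sum.inl ()) (Sum.inr ()) (.out fun _ => none), le_rfl, fun _ => rfl⟩

theorem add' {f g : α → ℝ} {c d : ℕ} (hf : Cmp f c) (hg : Cmp g d) :
    Cmp (fun a => f a + g a) (c + d + 1) := ((hf.pair hg).comp add)

theorem sub' {f g : α → ℝ} {c d : ℕ} (hf : Cmp f c) (hg : Cmp g d) :
    Cmp (fun a => f a - g a) (c + d + 1) := ((hf.pair hg).comp sub)

theorem mul' {f g : α → ℝ} {c d : ℕ} (hf : Cmp f c) (hg : Cmp g d) :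
    Cmp (fun a => f a * g a) (c + d + 1) := ((hf.pair hg).comp mul)

theorem div' {f g : α → ℝ} {c d : ℕ} (hf : Cmp f c) (hg : Cmp g d) :
    Cmp (fun a => f a / g a) (c + d + 1) := ((hf.pair hg).comp div)

theorem zero : Cmp (fun _ : α => (0 : ℝ)) 3 :=
  ((one (α := α)).sub' one).congr fun _ => by simp

theorem neg' {f : α → ℝ} {c : ℕ} (hf : Cmp f c) : Cmp (fun a => - f a) (c + 4) :=
  ((zero.sub' hf).congr fun _ => by simp).mono (by omega)

/-- Branching on the sign of a computed number. -/
theorem ite {h : α → ℝ} {f g : α → β} {ch cf cg : ℕ} (hh : Cmp h ch) (hf : Cmp f cf)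
    (hg : Cmp g cg) : Cmp (fun a => if 0 ≤ h a then f a else g a) (ch + 1 + max cf cg) := by
  have h1 : Cmp (fun p : α × ℝ => if 0 ≤ p.2 then f p.1 else g p.1) (1 + max cf cg) := by
    obtain ⟨T, h1, h2⟩ := (fst (α := α) (β := ℝ)).on hf
    obtain ⟨S, h3, h4⟩ := (fst (α := α) (β := ℝ)).on hg
    refine ⟨.test (Sum.inr ()) T S, by simp only [Tree.depth]; omega, fun p => ?_⟩
    simp only [Tree.eval, h2, h4]
    show (if 0 ≤ p.2 then _ else _) = _
    split_ifs <;> rfl
  exact (hh.bind h1).mono (by omega)

/-- Appending an entry to a vector is free. -/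
theorem snoc {n : ℕ} :
    Cmp (fun p : (Fin n → β) × β => (Fin.snoc p.1 p.2 : Fin (n + 1) → β)) 0 := by
  refine free (fun q : Fin (n + 1) × idx β =>
    if hq : (q.1 : ℕ) < n then Sum.inl ((⟨q.1, hq⟩ : Fin n), q.2) else Sum.inr q.2) ?_
  rintro p ⟨i, j⟩
  refine Fin.lastCases ?_ (fun i => ?_) i
  · simp only [Fin.val_last, lt_irrefl, dite_false]
    show enc (Fin.snoc (α := fun _ => β) p.1 p.2 (Fin.last n)) j = enc p.2 j
    rw [Fin.snoc_last]
  · simp only [Fin.val_castSucc, Fin.is_lt, dite_true]
    show enc (Fin.snoc (α := fun _ => β) p.1 p.2 i.castSucc) j = enc (p.1 i) j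
    rw [Fin.snoc_castSucc]

/-- Computation of all entries of a vector of length `n`. -/
theorem pi {n : ℕ} {f : α → Fin n → β} {c : ℕ} (h : ∀ i, Cmp (fun a => f a i) c) :
    Cmp f (n * c) := by
  induction n with
  | zero =>
    refine (free (fun p : Fin 0 × idx β => p.1.elim0) ?_).mono (by omega)
    rintro _ ⟨p, _⟩
    exact p.elim0
  | succ n ih =>
    have h1 : Cmp (fun a => fun i : Fin n => f a i.castSucc) (n * c) := ih fun i => h i.castSucc
    have h2 := h (Fin.last n)
    refine (((h1.pair h2).comp snoc).mono ?_).congr fun a => ?_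
    · rw [Nat.succ_mul]; omega
    · funext i
      refine Fin.lastCases ?_ (fun j => ?_) i
      · rw [Fin.snoc_last]
      · rw [Fin.snoc_castSucc]

/-- Computation of all entries of a finite family. -/
theorem piFintype {ι : Type} [Fintype ι] {f : α → ι → β} {c : ℕ}
    (h : ∀ i, Cmp (fun a => f a i) c) : Cmp f (Fintype.card ι * c) := by
  have e := Fintype.equivFin ι
  have h1 : Cmp (fun a => fun i : Fin (Fintype.card ι) => f a (e.symm i))
      (Fintype.card ι * c) := pi fun i => h (e.symm i)
  refine ((h1.comp (reindex (α := β) (fun i : ι => e i))).mono (by omega)).congr fun a => ?_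
  funext i
  simp

/-- Apply the same function to all entries of a vector. -/
theorem map {ι : Type} [Fintype ι] {g : α → β} {c : ℕ} (hg : Cmp g c) :
    Cmp (fun v : ι → α => fun i => g (v i)) (Fintype.card ι * c) :=
  piFintype fun i => (proj i).on hg

/-- Sums of vectors of length `n`. -/
theorem sum {n : ℕ} : Cmp (fun v : Fin n → ℝ => ∑ i, v i) (n + 3) := by
  induction n with
  | zero => exact (zero.congr fun _ => by simp)
  | succ n ih =>
    have h1 : Cmp (fun v : Fin (n + 1) → ℝ => ∑ i : Fin n, v i.castSucc) (n + 3) :=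
      (reindex (α := ℝ) (fun i : Fin n => i.castSucc)).on ih
    refine ((h1.add' (proj (Fin.last n))).mono (by omega)).congr fun v => ?_
    rw [Fin.sum_univ_castSucc]

end Cmp

end Pool.Agent.H717.NL
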