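import Pool.Agent.H717.NL.Model

set_option autoImplicit false

namespace Pool.Agent.H717.NL

/-- Algebraic computation trees over the reals. The machine has registers `0, 1, 2, ...`; the result of
`one` (the constant `1`), `add i j`, `sub i j`, `mul i j`, `div i j` (applied to the contents of the
registers `i` and `j`) is stored in the next free register; `test i s t` continues with `s` if the
content of register `i` is `≥ 0` and with `t` otherwise; `out o` stops, output number `j` is the content
of register `o j`. -/
inductive Prog : Type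
  | out (o : ℕ → ℕ) : Prog
  | one (t : Prog) : Prog
  | add (i j : ℕ) (t : Prog) : Prog
  | sub (i j : ℕ) (t : Prog) : Prog
  | mul (i j : ℕ) (t : Prog) : Prog
  | div (i j : ℕ) (t : Prog) : Prog
  | test (i : ℕ) (s t : Prog) : Prog

/-- `p.run k x j` is the output number `j` of `p`, started with the contents `x` of the registers and
with `k` as the next free register. -/
noncomputable def Prog.run (p : Prog) : ℕ → (ℕ → ℝ) → ℕ → ℝ :=
  Prog.rec (motive := fun _ => ℕ → (ℕ → ℝ) → ℕ → ℝ)
    (fun o _ x j => x (o j))
    (fun _ r k x => r (k + 1) (Function.update x k 1))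
    (fun i j _ r k x => r (k + 1) (Function.update x k (x i + x j)))
    (fun i j _ r k x => r (k + 1) (Function.update x k (x i - x j)))
    (fun i j _ r k x => r (k + 1) (Function.update x k (x i * x j)))
    (fun i j _ r k x => r (k + 1) (Function.update x k (x i / x j)))
    (fun i _ _ r r' k x => if 0 ≤ x i then r k x else r' k x) p

/-- The largest number of instructions (without the final `out`) executed on any path. -/
noncomputable def Prog.cost (p : Prog) : ℕ :=
  Prog.rec (motive := fun _ => ℕ) (fun _ => 0) (fun _ c => c + 1) (fun _ _ _ c => c + 1)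
    (fun _ _ _ c => c + 1) (fun _ _ _ c => c + 1) (fun _ _ _ c => c + 1)
    (fun _ _ _ c c' => max c c' + 1) p

/-- the registers after a push -/
def pushReg {ι : Type} (k : ℕ) (e : ι → ℕ) : Option ι → ℕ := fun o => o.elim k e

/-- compilation of typed trees -/
def Tree.toProg {κ : Type} (q : ℕ → κ) : {ι : Type} → Tree κ ι → ℕ → (ι → ℕ) → Prog
  | _, .out o, _, e => .out fun j => e (o (q j))
  | _, .one t, k, e => .one (t.toProg q (k + 1) (pushReg k e))
  | _, .add i j t, k, e => .add (e i) (e j) (t.toProg q (k + 1) (pushReg k e))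
  | _, .sub i j t, k, e => .sub (e i) (e j) (t.toProg q (k + 1) (pushReg k e))
  | _, .mul i j t, k, e => .mul (e i) (e j) (t.toProg q (k + 1) (pushReg k e))
  | _, .div i j t, k, e => .div (e i) (e j) (t.toProg q (k + 1) (pushReg k e))
  | _, .test i s t, k, e => .test (e i) (s.toProg q k e) (t.toProg q k e)

theorem Tree.cost_toProg {κ : Type} (q : ℕ → κ) : ∀ {ι : Type} (T : Tree κ ι) (k : ℕ)
    (e : ι → ℕ), (T.toProg q k e).cost = T.depth
  | _, .out _, _, _ => rfl
  | _, .one t, k, e => congrArg (· + 1) (Tree.cost_toProg q t (k + 1) (pushReg k e))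
  | _, .add _ _ t, k, e => congrArg (· + 1) (Tree.cost_toProg q t (k + 1) (pushReg k e))
  | _, .sub _ _ t, k, e => congrArg (· + 1) (Tree.cost_toProg q t (k + 1) (pushReg k e))
  | _, .mul _ _ t, k, e => congrArg (· + 1) (Tree.cost_toProg q t (k + 1) (pushReg k e))
  | _, .div _ _ t, k, e => congrArg (· + 1) (Tree.cost_toProg q t (k + 1) (pushReg k e))
  | _, .test _ s t, k, e => by
      have h1 := Tree.cost_toProg q s k e
      have h2 := Tree.cost_toProg q t k e
      show max (s.toProg q k e).cost (t.toProg q k e).cost + 1 = max s.depth t.depth + 1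
      rw [h1, h2]

theorem push_inv {ι : Type} {k : ℕ} {e : ι → ℕ} {x : ℕ → ℝ} {y : ι → ℝ} (he : ∀ i, e i < k)
    (hx : ∀ i, x (e i) = y i) (r : ℝ) :
    (∀ i, pushReg k e i < k + 1) ∧ ∀ i, Function.update x k r (pushReg k e i) = push y r i := by
  constructor
  · intro i
    cases i with
    | none => exact Nat.lt_succ_self k
    | some i => exact Nat.lt_succ_of_lt (he i)
  · intro i
    cases i with
    | none =>
      show Function.update x k r k = r
      rw [Function.update_self]
    | some i =>
      show Function.update x k r (e i) = y i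
      rw [Function.update_of_ne (he i).ne, hx i]

theorem Tree.run_toProg {κ : Type} (q : ℕ → κ) : ∀ {ι : Type} (T : Tree κ ι) (k : ℕ)
    (e : ι → ℕ) (x : ℕ → ℝ) (y : ι → ℝ), (∀ i, e i < k) → (∀ i, x (e i) = y i) →
    ∀ j, (T.toProg q k e).run k x j = T.eval y (q j)
  | _, .out o, k, e, x, y, he, hx, j => hx _
  | _, .one t, k, e, x, y, he, hx, j => by
      obtain ⟨h1, h2⟩ := push_inv he hx 1
      exact Tree.run_toProg q t (k + 1) (pushReg k e) _ _ h1 h2 j
  | _, .add i i' t, k, e, x, y, he, hx, j => by
      obtain ⟨h1, h2⟩ := push_inv he hx (y i + y i')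
      have h3 := Tree.run_toProg q t (k + 1) (pushReg k e) _ _ h1 h2 j
      rw [← hx i, ← hx i'] at h3
      exact h3.trans (by rw [hx i, hx i']; rfl)
  | _, .sub i i' t, k, e, x, y, he, hx, j => by
      obtain ⟨h1, h2⟩ := push_inv he hx (y i - y i')
      have h3 := Tree.run_toProg q t (k + 1) (pushReg k e) _ _ h1 h2 j
      rw [← hx i, ← hx i'] at h3
      exact h3.trans (by rw [hx i, hx i']; rfl)
  | _, .mul i i' t, k, e, x, y, he, hx, j => by
      obtain ⟨h1, h2⟩ := push_inv he hx (y i * y i')
      have h3 := Tree.run_toProg q t (k + 1) (pushReg k e) _ _ h1 h2 j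
      rw [← hx i, ← hx i'] at h3
      exact h3.trans (by rw [hx i, hx i']; rfl)
  | _, .div i i' t, k, e, x, y, he, hx, j => by
      obtain ⟨h1, h2⟩ := push_inv he hx (y i / y i')
      have h3 := Tree.run_toProg q t (k + 1) (pushReg k e) _ _ h1 h2 j
      rw [← hx i, ← hx i'] at h3
      exact h3.trans (by rw [hx i, hx i']; rfl)
  | _, .test i s t, k, e, x, y, he, hx, j => by
      have h1 := Tree.run_toProg q s k e x y he hx j
      have h2 := Tree.run_toProg q t k e x y he hx j
      show (if 0 ≤ x (e i) then (s.toProg q k e).run k x else (t.toProg q k e).run k x) j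
        = (if 0 ≤ y i then s.eval y else t.eval y) (q j)
      rw [hx i]
      split_ifs
      · exact h1
      · exact h2

end Pool.Agent.H717.NL
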