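import Pool.Agent.H717.NL.Model

set_option autoImplicit false

/-!
# MP_26b317_lc, Q2: near-linear deterministic perturbations.  Statements of the subtasks.

Everything about cost is expressed by `Cmp f c` (see `Model.lean`): the function `f` between tuples
of reals is computed by an algebraic computation tree with at most `c` operations.  Selecting,
permuting, duplicating components is free (`Cmp.free`, `Cmp.reindex`, ...).  `Cmp.bind` is the
let-rule: sharing of intermediate results must be organised with it.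
-/

open Polynomial

namespace Pool.Agent.H717.NL

/-- The polynomial with the given coefficients (constant term first). -/
noncomputable def toPoly {m : ℕ} (v : Fin m → ℝ) : ℝ[X] := ∑ i, C (v i) * X ^ (i : ℕ)

/-- Extension of a finite sequence by zero. -/
def ext {n : ℕ} (v : Fin n → ℝ) (i : ℕ) : ℝ := if h : i < n then v ⟨i, h⟩ else 0

/-- Continuants: characteristic polynomials of the leading blocks of a Jacobi matrix with diagonal
`a` and squared off-diagonal entries `c` (`c j` couples `j` and `j+1`). -/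
noncomputable def cont (a c : ℕ → ℝ) : ℕ → ℝ[X]
  | 0 => 1
  | 1 => X - C (a 0)
  | (n + 2) => (X - C (a (n + 1))) * cont a c (n + 1) - C (c n) * cont a c n

/-- The real symmetric Jacobi matrix with diagonal `a` and off-diagonal entries `r`. -/
def jac (n : ℕ) (a r : ℕ → ℝ) : Matrix (Fin n) (Fin n) ℝ :=
  Matrix.of fun i j => if (i : ℕ) = j then a i else if (i : ℕ) + 1 = j then r i
    else if (j : ℕ) + 1 = i then r j else 0

/-- A 2 × 2 matrix of polynomials of degree at most one. -/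
noncomputable def linMat (M : Fin 2 → Fin 2 → Fin 2 → ℝ) : Matrix (Fin 2) (Fin 2) ℝ[X] :=
  Matrix.of fun i j => C (M i j 0) + C (M i j 1) * X

/-- `u` is an orthonormal family. -/
def ON {n : ℕ} (u : Fin n → Fin n → ℝ) : Prop :=
  ∀ i j, ∑ s, u i s * u j s = if i = j then 1 else 0

/-- `l` is the increasing list of the eigenvalues of `M`. -/
def Spec {n : ℕ} (M : Matrix (Fin n) (Fin n) ℝ) (l : Fin n → ℝ) : Prop :=
  Monotone l ∧ M.charpoly = ∏ i, (X - C (l i))

/-- the bilinear form `x^T M y` -/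
def qf {n : ℕ} (M : Matrix (Fin n) (Fin n) ℝ) (x y : Fin n → ℝ) : ℝ := dotProduct x (M.mulVec y)

/-! ## Part 1: fast arithmetic -/

/-- Fast Fourier transform over the ring `ℝ[X]/(X^(2^s)+1)` in which `X` is a root of unity of order
`2^(s+1)`; the transform has length `2^m`, `m ≤ s+1`, with the root of unity `X^(u*2^(s+1-m))`.
Ring elements are given by their `2^s` coefficients. Proof: induction on `m`, splitting into even and
odd indices: `Σ_a F_a w^(a j) = Σ_b F_{2b} (w²)^(b j) + w^j Σ_b F_{2b+1} (w²)^(b j)` with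
`w = X^(u 2^(s+1-m))`; the two inner sums are transforms of length `2^(m-1)` for the same `u`, at
index `j mod 2^(m-1)` (as `(w²)^(2^(m-1)) = X^(u 2^(s+1)) = 1` modulo `X^(2^s)+1`). Multiplication by
`w^j = X^e` modulo `X^(2^s)+1` is a permutation of the coefficients with signs: at most `4` operations
per coefficient (negation is `0 - x`). So `cost(m) ≤ 2 cost(m-1) + 2^m * (c * 2^s)`. -/
def S_dftcost : Prop := ∃ K : ℕ, ∀ s m u : ℕ, m ≤ s + 1 →
  Cmp (β := Fin (2 ^ m) → Fin (2 ^ s) → ℝ)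
    (fun F : Fin (2 ^ m) → Fin (2 ^ s) → ℝ => fun j i =>
    ((∑ a : Fin (2 ^ m), toPoly (F a) * X ^ (u * 2 ^ (s + 1 - m) * (a : ℕ) * (j : ℕ)))
      %ₘ (X ^ (2 ^ s) + 1)).coeff i) (K * 2 ^ m * 2 ^ s * (m + 1))

/-- Negacyclic convolution by Nussbaumer's recursion. With `s = ⌈k/2⌉ = (k+1)/2`, `s' = k - s ≤ s`,
write `f = Σ_{i<2^s'} x^i f_i(x^(2^s'))` with `f_i` of degree `< 2^s`; put `y = x^(2^s')`. Then
`ℝ[x]/(x^(2^k)+1) = R[x]/(x^(2^s') - y)`, `R = ℝ[y]/(y^(2^s)+1)`. The product of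
`Σ_i f_i x^i` and `Σ_i g_i x^i` in `R[x]` has degree `< 2^(s'+1)`, so it is a cyclic convolution of
length `2^m`, `m = s'+1 ≤ s+1`, over `R`; it is `2^(-m)` times the inverse transform (`u = 2^(s+1) - 1`)
of the pointwise products of the transforms (`u = 1`) (`S_dftcost`), because
`Σ_j w^(j d) = 0` for `0 < |d| < 2^m`. There are `2^m` pointwise products, each a negacyclic
convolution of length `2^s`. Finally `x^(2^s'+i) = y x^i`. Cost:
`N(k) ≤ 2^(s'+1) N(s) + c (m+1) 2^m 2^s`, which gives `N(k) ≤ K 2^k (k+1)^2`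
(for `k ≥ 4`, `2 ((k+1)/2 + 1)^2 ≤ (k+1)^2 - (something linear)`; treat small `k` directly). -/
def S_neg : Prop := ∃ K : ℕ, ∀ k : ℕ,
  Cmp (fun p : (Fin (2 ^ k) → ℝ) × (Fin (2 ^ k) → ℝ) => fun i : Fin (2 ^ k) =>
    ((toPoly p.1 * toPoly p.2) %ₘ (X ^ (2 ^ k) + 1)).coeff i) (K * 2 ^ k * (k + 1) ^ 2)

/-- Fast multiplication of polynomials: pad with zeros to length `2^(k+1)` and use `S_neg` for `k+1`
(a product of degree `< 2^(k+1)` is not changed by reduction modulo `X^(2^(k+1))+1`). -/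
def S_mul : Prop := ∃ K : ℕ, ∀ k m l q : ℕ, m ≤ 2 ^ k → l ≤ 2 ^ k → q ≤ 2 ^ (k + 1) →
  Cmp (fun p : (Fin m → ℝ) × (Fin l → ℝ) => fun i : Fin q => (toPoly p.1 * toPoly p.2).coeff i)
    (K * 2 ^ k * (k + 1) ^ 2)

/-- Newton inversion of power series: with `h = 1 + X * toPoly v` and `g_k = h⁻¹ mod X^(2^k)`,
`g_{k+1} = g_k * (2 - h g_k) mod X^(2^(k+1))`; two truncated multiplications per step. -/
def S_inv : Prop := ∃ K : ℕ, ∀ k m : ℕ, m ≤ 2 ^ k →
  Cmp (β := Fin (2 ^ k) → ℝ) (fun v : Fin m → ℝ => fun i : Fin (2 ^ k) =>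
    PowerSeries.coeff (R := ℝ) (i : ℕ)
      ((1 + PowerSeries.X * ((toPoly v : ℝ[X]) : PowerSeries ℝ))⁻¹))
    (K * 2 ^ k * (k + 1) ^ 2)

/-- Fast division with remainder by a monic polynomial: if `f = q g + r` with `deg f < m`,
`deg g = d`, reverse coefficients: `rev q = (rev f) * (rev g)⁻¹ mod X^(m-d)` (`S_inv`, `S_mul`); then
`r = f - q g`. If `m ≤ d` the remainder is `f` itself. -/
def S_mod : Prop := ∃ K : ℕ, ∀ k m d : ℕ, m ≤ 2 ^ k → d ≤ 2 ^ k →
  Cmp (fun p : (Fin m → ℝ) × (Fin d → ℝ) => fun i : Fin d =>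
    (toPoly p.1 %ₘ (X ^ d + toPoly p.2)).coeff i) (K * 2 ^ k * (k + 1) ^ 2)

/-- Product of `2^k` matrices of size 2 × 2 with entries of degree `≤ 1`, by divide and conquer:
`cost(k+1) ≤ 2 cost(k) + 8 multiplications of polynomials of degree ≤ 2^k + 4 additions`. -/
def S_prod2 : Prop := ∃ K : ℕ, ∀ k : ℕ,
  Cmp (β := Fin 2 → Fin 2 → Fin (2 ^ k + 1) → ℝ)
    (fun M : Fin (2 ^ k) → Fin 2 → Fin 2 → Fin 2 → ℝ => fun i j q =>
      ((List.ofFn fun a => linMat (M a)).prod i j).coeff q) (K * 2 ^ k * (k + 1) ^ 3)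

/-- Multipoint evaluation: with `g` the product of `X - t_j` over the first half of the points
(the `(0,0)` entry of a product of diagonal matrices in `S_prod2`, with the other diagonal entry `1`,
say; it is monic, so its lower coefficients are the input of `S_mod`) and `g'` for the second half,
evaluate `f %ₘ g` at the first half and `f %ₘ g'` at the second half, recursively.
`E(k+1) ≤ 2 E(k) + 2 * (K 2^k (k+1)^3) + 2 * (K' 2^(k+1) (k+2)^2)`. -/
def S_mpe : Prop := ∃ K : ℕ, ∀ k m : ℕ, m ≤ 2 ^ k →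
  Cmp (fun p : (Fin m → ℝ) × (Fin (2 ^ k) → ℝ) => fun j : Fin (2 ^ k) =>
    (toPoly p.1).eval (p.2 j)) (K * 2 ^ k * (k + 1) ^ 4)

/-- Merge sort in the tree model. First: merging a sorted vector of length `m` with a sorted vector of
length `l` costs at most `m + l` tests and subtractions (times a constant), by induction on `m + l`
(compare the first entries; `Cmp.ite`, `Cmp.free`). Then merge sort. -/
def S_sort : Prop := ∃ K : ℕ, ∀ k N : ℕ, N ≤ 2 ^ k →
  Cmp (fun v : Fin N → ℝ => fun i => v (Tuple.sort v i)) (K * 2 ^ k * (k + 1))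

/-- Multipoint evaluation of a continuant of length `2^k - 1` at `2^k - 1` points. The transfer
matrices `T_j = !![X - a_j, -c_{j-1}; 1, 0]` satisfy
`T_{n-1} * ... * T_0 * (1, 0)^T = (cont a c n, cont a c (n-1))^T`; multiply with `S_prod2` (one identity
matrix as padding), read off the coefficients of the monic polynomial `cont a c (2^k-1)` (degree
`< 2^k`) and use `S_mpe` (with one dummy point). -/
def S_charval : Prop := ∃ K : ℕ, ∀ k : ℕ,
  Cmp (fun p : ((Fin (2 ^ k - 1) → ℝ) × (Fin (2 ^ k - 1) → ℝ)) × (Fin (2 ^ k - 1) → ℝ) =>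
    fun j : Fin (2 ^ k - 1) => (cont (ext p.1.1) (ext p.1.2) (2 ^ k - 1)).eval (p.2 j))
    (K * 2 ^ k * (k + 1) ^ 4)

/-! ## Part 2: spectra of Jacobi matrices -/

/-- Expansion of the determinant along the last row. -/
def S_jac : Prop := ∀ (n : ℕ) (a r : ℕ → ℝ),
  (jac n a r).charpoly = cont a (fun i => r i ^ 2) n

/-- Real symmetric matrices have an increasing list of eigenvalues. -/
def S_spec : Prop := ∀ (n : ℕ) (M : Matrix (Fin n) (Fin n) ℝ), M.IsSymm → ∃ l, Spec M l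

/-- Orthonormal eigenbasis adapted to the increasing list of the eigenvalues. -/
def S_basis : Prop := ∀ (n : ℕ) (M : Matrix (Fin n) (Fin n) ℝ) (l : Fin n → ℝ), M.IsSymm →
  Spec M l → ∃ u, ON u ∧ ∀ i, M.mulVec (u i) = l i • u i

/-- Cauchy interlacing for continuants with `c ≥ 0`: removing the site `p` from a Jacobi matrix with
`p + 1 + q` sites leaves the blocks `[0,p)` and `[p+1,p+1+q)`. (Via `S_jac` with `r = √c`, and Cauchy
interlacing for a principal submatrix of a real symmetric matrix: Courant-Fischer, or the rational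
function `cont(B)/(cont(L) cont(R)) = X - a_p - c_{p-1} ../cont(L) - c_p ../cont(R)`.) -/
def S_interl : Prop := ∀ (a c : ℕ → ℝ) (p q : ℕ), (∀ i, 0 ≤ c i) →
  ∀ (l : Fin (p + q + 1) → ℝ) (d : Fin (p + q) → ℝ), Monotone l → Monotone d →
    cont a c (p + q + 1) = ∏ i, (X - C (l i)) →
    cont a c p * cont (fun i => a (p + 1 + i)) (fun i => c (p + 1 + i)) q = ∏ i, (X - C (d i)) →
    ∀ i : Fin (p + q), l i.castSucc ≤ d i ∧ d i ≤ l i.succ

/-- Approximation of all eigenvalues by divide and conquer and simultaneous bisection.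
`ρ = 2H/2^J`, claimed error `4^k ρ`. For `k+1`: `N = 2^(k+1) - 1`, `p = q = 2^k - 1`; apply the case `k`
to the blocks `[0,p)` and `[p+1,N)` (their eigenvalues lie in `[-H,H]` by `S_interl`); sort the
`N - 1` numbers obtained (`S_sort`): `x_0 ≤ ... ≤ x_{N-2}`; if `d_0 ≤ ... ≤ d_{N-2}` are the eigenvalues
of the two blocks together, then `|x_i - d_i| ≤ e := 4^k ρ` (sorting does not increase the maximal
distance of two vectors). By `S_interl` `d_{i-1} ≤ l_i ≤ d_i` (`l_0 ≥ -H`, `l_{N-1} ≤ H`). For each `i`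
start with the interval from `lo = x_{i-1} + 2e` to `hi = x_i - 2e` (`lo = -H` if `i = 0`, `hi = H` if
`i = N-1`) and do `J` rounds: `t_i = (lo_i + hi_i)/2`, `v_i = cont(t_i)` for all `i` at once
(`S_charval`), and `hi_i := t_i` if `0 ≤ (-1)^(N-1-i) v_i`, `lo_i := t_i` otherwise. Output the midpoints.
Correctness: if initially `lo ≤ hi` then `d_{i-1} < lo ≤ t ≤ hi < d_i`, so
`(-1)^(N-1-i) cont(t) = (t - l_i) * (positive)`, and `l_i ∈ [lo - 3e, hi + 3e]` is preserved while the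
length is halved, final length `≤ 2H/2^J = ρ`, so the error is at most `3e + ρ ≤ 4^(k+1) ρ`. If initially
`hi < lo`, then all `t` stay between `x_i - 2e` and `x_{i-1} + 2e` and
`x_{i-1} - e ≤ l_i ≤ x_i + e`, so the error is at most `3e`. -/
def S_eig : Prop := ∃ K : ℕ, ∀ k J : ℕ,
  ∃ F : ((Fin (2 ^ k - 1) → ℝ) × (Fin (2 ^ k - 1) → ℝ)) × ℝ → (Fin (2 ^ k - 1) → ℝ),
    Cmp F (K * 2 ^ k * (k + 1) ^ 6 * (J + 1)) ∧
    ∀ (a c : Fin (2 ^ k - 1) → ℝ) (H : ℝ), 0 < H → (∀ i, 0 ≤ c i) →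
      ∀ l : Fin (2 ^ k - 1) → ℝ, Monotone l →
        cont (ext a) (ext c) (2 ^ k - 1) = ∏ i, (X - C (l i)) → (∀ i, |l i| ≤ H) →
        ∀ i, |F ((a, c), H) i - l i| ≤ 4 ^ k * (2 * H / 2 ^ J)

/-! ## Part 3: the potential and the gap -/

/-- For real symmetric `M` with increasing eigenvalues `l` and any orthonormal basis `v`,
`Σ i * v_i^T M v_i ≤ Σ i * l_i`: with an eigenbasis `u`, `v_i^T M v_i = Σ_j (v_i·u_j)² l_j`, the matrix
`(v_i·u_j)²` is doubly stochastic, hence (Birkhoff) a convex combination of permutation matrices, and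
the rearrangement inequality applies to each permutation. -/
def S_kyfan : Prop := ∀ (n : ℕ) (M : Matrix (Fin n) (Fin n) ℝ) (l : Fin n → ℝ)
  (v : Fin n → Fin n → ℝ), M.IsSymm → Spec M l → ON v →
    ∑ i : Fin n, ((i : ℕ) : ℝ) * qf M (v i) (v i) ≤ ∑ i : Fin n, ((i : ℕ) : ℝ) * l i

/-- Lower bounds for the second difference of `Ψ(M) = Σ i l_i(M)`. Apply `S_kyfan` to `M + wX` and
`M - wX` with the eigenbasis `u` of `M` in which `u_a, u_b` are replaced by
* (first bound) `v_b = (u_a + e u_b)/√2, v_a = (u_a - e u_b)/√2` with the sign `e = ±1` chosen so that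
  `e * w * qf X u_a u_b = w |..|` for `M + wX`, and the opposite sign for `M - wX`;
* (second bound) `v = u` for one of the two matrices and `u_a, u_b` exchanged for the other.
The result is `(b - a) * (2w|..| - (l_b - l_a)) ≤ S` resp. `(b-a) * (w|..| - (l_b - l_a)) ≤ S`,
and `0 ≤ S` (take `v = u` twice); as `b - a ≥ 1` the claims follow. -/
def S_second : Prop := ∀ (n : ℕ) (M X : Matrix (Fin n) (Fin n) ℝ) (w : ℝ) (l lp lm : Fin n → ℝ)
  (u : Fin n → Fin n → ℝ), M.IsSymm → X.IsSymm → 0 < w → Spec M l → Spec (M + w • X) lp →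
    Spec (M - w • X) lm → ON u → (∀ i, M.mulVec (u i) = l i • u i) →
    0 ≤ ∑ i : Fin n, ((i : ℕ) : ℝ) * (lp i + lm i - 2 * l i) ∧
    ∀ a b : Fin n, a < b →
      2 * w * |qf X (u a) (u b)| - (l b - l a)
        ≤ ∑ i : Fin n, ((i : ℕ) : ℝ) * (lp i + lm i - 2 * l i) ∧
      w * |qf X (u a) (u a) - qf X (u b) (u b)| - (l b - l a)
        ≤ ∑ i : Fin n, ((i : ℕ) : ℝ) * (lp i + lm i - 2 * l i)

/-- Weyl's inequality for a diagonal perturbation with entries of absolute value at most one. -/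
def S_weyl : Prop := ∀ (n : ℕ) (M : Matrix (Fin n) (Fin n) ℝ) (x : Fin n → ℝ) (s : ℝ)
  (l l' : Fin n → ℝ), M.IsSymm → (∀ i, |x i| ≤ 1) → Spec M l →
    Spec (M + s • Matrix.diagonal x) l' → ∀ i, |l' i - l i| ≤ |s|

/-- the diagonal matrix with entries `0, 1/n, ..., (n-1)/n` -/
noncomputable def XX (n : ℕ) : Matrix (Fin n) (Fin n) ℝ :=
  Matrix.diagonal fun p : Fin n => ((p : ℕ) : ℝ) / n

/-- **The cluster lemma.** Write `M = jac n a r`, `X = XX n`. Suppose `g := l_j - l_i < w/(1000000 n^6)`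
for some `i < j`; we may take `j = i+1`; put `λ = l_i`, `U = span(u_i, u_j)`, `Λ = w/(192 n³)`,
`V = span {u_k : |l_k - λ| ≤ Λ}` (contains `U`), `ξ = qf X u_i u_i`.
(1) By hypothesis `|qf X u_k u_k - ξ| ≤ 1/(48 n³)` and `|qf X u_k u_m| ≤ 1/(96 n³)` for `k ≠ m` in the
    cluster, so `|y^T (X - ξ) y| ≤ |y|²/(48 n²)` for all `y ∈ V`.
(2) If `|(M - λ) y| ≤ ρ` then `|y - P_V y| ≤ ρ/Λ`; if moreover `|y| ≤ 1` then, as `|X - ξ| ≤ 1`,
    `|y^T (X - ξ) y| ≤ 1/(48 n²) + 3ρ/Λ` (for `ρ/Λ ≤ 1`).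
(3) For a site `s` let `m_s = u_i(s)² + u_j(s)²` (so `y(s)² ≤ m_s |y|²` for `y ∈ U`, `Σ m_s = 2`); call
    `s` heavy if `m_s ≥ 1/(8n²)`. For heavy `s` let `y_s ∈ U` be the unit vector proportional to
    `u_j(s) u_i - u_i(s) u_j`, which vanishes at `s`, and `z_s ∈ U` the unit vector proportional to
    `u_i(s) u_i + u_j(s) u_j`, with `z_s(s) = √m_s ≥ 1/(3n)`. Put `f = (M-λ) y_s`, `h = (M-λ) z_s`, of
    norm `≤ g`. The Wronskian `W_p = r_p (y(p+1) z(p) - y(p) z(p+1))` satisfies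
    `W_p - W_{p-1} = z(p) f(p) - y(p) h(p)`, `W_{-1} = 0`, hence `|W_p| ≤ 2g` and (as `y(s) = 0`)
    `|r_s y(s+1)| ≤ 6 n g`, `|r_{s-1} y(s-1)| ≤ 6 n g`.
(4) Let `y_L, y_R` be the restrictions of `y = y_s` to `[0,s)` and `(s,n)`. Then
    `|(M - λ) y_L| ≤ g + 6ng ≤ 9 n g =: ρ`, the same for `y_R`. By (2), as `3ρ/Λ ≤ 1/(144 n²)`,
    `|y_L^T (X-ξ) y_L| ≤ θ := 1/(48n²) + 1/(144 n²) = 1/(36 n²)`, the same for `y_R`.
    Since `X ≤ (s-1)/n` on `[0,s)` and `X ≥ (s+1)/n` on `(s,n)`: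
    `(ξ - (s-1)/n) |y_L|² ≤ θ`, `((s+1)/n - ξ) |y_R|² ≤ θ`. Hence: if `s ≤ nξ` then
    `|y_L|² ≤ nθ`, and if `s ≥ nξ` then `|y_R|² ≤ nθ ≤ 1/(36n)`.
(5) Heavy sites exist. Let `s` be the largest heavy site `≤ nξ` and `t` the smallest heavy site
    `> nξ`. If both exist: the sites strictly between `s` and `t` carry mass `≤ n/(8n²) = 1/(8n)` of
    each unit vector of `U`. So `y_s` has mass `≥ 1 - 1/(36n) - 1/(8n)` on `[t,n)` and, by (1),
    `t/n - (1/(36n) + 1/(8n)) ≤ y_s^T X y_s ≤ ξ + 1/(48n²)`. Similarly `y_t` has that much mass on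
    `[0,s]` and `ξ - 1/(48n²) ≤ y_t^T X y_t ≤ s/n + 1/(36n) + 1/(8n)`. Adding,
    `1/n ≤ (t-s)/n ≤ 2/(36n) + 2/(8n) + 2/(48n²) < 1/n`, a contradiction. If there is no heavy site
    `≤ nξ`, then `y_t` (`t` the smallest heavy site, `t > nξ`) has mass `≥ 1 - 1/(36n)` on `[0,t)`, but
    this set has only light sites, mass `≤ 1/(8n)`, a contradiction; the other case is symmetric. -/
def S_cluster : Prop := ∀ (n : ℕ) (a r : ℕ → ℝ) (w : ℝ) (l : Fin n → ℝ) (u : Fin n → Fin n → ℝ),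
  2 ≤ n → 0 < w → Monotone l → ON u → (∀ i, (jac n a r).mulVec (u i) = l i • u i) →
  (∀ i j, i < j → 2 * w * |qf (XX n) (u i) (u j)| - (l j - l i) ≤ w / (96 * (n : ℝ) ^ 3)) →
  (∀ i j, i < j → w * |qf (XX n) (u i) (u i) - qf (XX n) (u j) (u j)| - (l j - l i)
    ≤ w / (96 * (n : ℝ) ^ 3)) →
  ∀ i j, i < j → w / (1000000 * (n : ℝ) ^ 6) ≤ l j - l i

/-! ## Part 4: search and transfer -/

/-- second difference -/
noncomputable def sd (f : ℝ → ℝ) (m h : ℝ) : ℝ := f (m + h) + f (m - h) - 2 * f m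

/-- One round of the search: the interval `[m-h, m+h]` is replaced by one of
`[m-h, m], [m-h/2, m+h/2], [m, m+h]` with the smallest second difference of `f`. -/
noncomputable def round (f : ℝ → ℝ) (s : ℝ × ℝ) : ℝ × ℝ :=
  if 0 ≤ sd f s.1 (s.2 / 2) - sd f (s.1 - s.2 / 2) (s.2 / 2) then
    if 0 ≤ sd f (s.1 + s.2 / 2) (s.2 / 2) - sd f (s.1 - s.2 / 2) (s.2 / 2) then
      (s.1 - s.2 / 2, s.2 / 2) else (s.1 + s.2 / 2, s.2 / 2)
  else if 0 ≤ sd f (s.1 + s.2 / 2) (s.2 / 2) - sd f s.1 (s.2 / 2) then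
      (s.1, s.2 / 2) else (s.1 + s.2 / 2, s.2 / 2)

/-- `sd g m h = sd g (m-h/2) (h/2) + 2 sd g m (h/2) + sd g (m+h/2) (h/2)`, so the smallest of the three
is at most `sd g m h / 4`; the approximation costs at most `8τ` per round. -/
def S_search : Prop := ∀ (f g : ℝ → ℝ) (τ : ℝ), 0 ≤ τ →
  (∀ x, 0 ≤ x → x ≤ 1 → |f x - g x| ≤ τ) → ∀ (L : ℕ),
    ((round f)^[L] (1 / 2, 1 / 2)).2 = 1 / 2 ^ (L + 1) ∧
    0 ≤ ((round f)^[L] (1 / 2, 1 / 2)).1 - ((round f)^[L] (1 / 2, 1 / 2)).2 ∧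
    ((round f)^[L] (1 / 2, 1 / 2)).1 + ((round f)^[L] (1 / 2, 1 / 2)).2 ≤ 1 ∧
    sd g ((round f)^[L] (1 / 2, 1 / 2)).1 ((round f)^[L] (1 / 2, 1 / 2)).2
      ≤ sd g (1 / 2) (1 / 2) / 4 ^ L + 11 * τ

/-- `A` is tridiagonal. -/
def IsTridiagonal {n : ℕ} (A : Matrix (Fin n) (Fin n) ℂ) : Prop :=
  ∀ i j : Fin n, (i : ℕ) + 1 < j ∨ (j : ℕ) + 1 < i → A i j = 0

/-- The entry of `A` with natural number indices; it is `0` outside. -/
def entry {n : ℕ} (A : Matrix (Fin n) (Fin n) ℂ) (i j : ℕ) : ℂ :=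
  if h : i < n ∧ j < n then A ⟨i, h.1⟩ ⟨j, h.2⟩ else 0

/-- The characteristic polynomial of a Hermitian tridiagonal matrix is a continuant. -/
def S_trans : Prop := ∀ (n : ℕ) (A : Matrix (Fin n) (Fin n) ℂ) (e : Fin n → ℝ),
  A.IsHermitian → IsTridiagonal A →
    (A + Matrix.diagonal fun j => (e j : ℂ)).charpoly =
      (cont (fun j => (entry A j j).re + ext e j)
        (fun j => (entry A j (j + 1)).re ^ 2 + (entry A j (j + 1)).im ^ 2) n).map
          (algebraMap ℝ ℂ)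

open scoped Matrix.Norms.L2Operator in
/-- Eigenvalues are bounded by the norm. -/
def S_bound : Prop := ∀ (n : ℕ) (A : Matrix (Fin n) (Fin n) ℂ) (e : Fin n → ℝ) (δ x : ℝ),
  0 ≤ δ → (∀ j, |e j| ≤ δ) →
    ((A + Matrix.diagonal fun j => (e j : ℂ)).charpoly).IsRoot (x : ℂ) → |x| ≤ ‖A‖ + δ

/-- Decoupled sites: if `c (n-1) = 0` and `a j = t`, `c j = 0` for `j ≥ n` then the continuant of
length `n + m` is the one of length `n` times `(X - t)^m`. -/
def S_pad : Prop := ∀ (a c : ℕ → ℝ) (n m : ℕ) (t : ℝ), (∀ j, n ≤ j → a j = t) →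
  (∀ j, n ≤ j + 1 → c j = 0) → cont a c (n + m) = cont a c n * (X - C t) ^ m

end Pool.Agent.H717.NL
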