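import Pool.Agent.H717.NL.Stmts

set_option autoImplicit false

open Polynomial

namespace Pool.Agent.H717.NL

/-- Steps (3), (4) of the proof of the cluster lemma (`S_cluster`): truncation of an approximate
eigenvector at a site where it vanishes. With `f = (M - t) y`, `h = (M - t) z` the Wronskian
`W_p = r_p (y(p+1) z(p) - y(p) z(p+1))` satisfies `W_p - W_{p-1} = z(p) f(p) - y(p) h(p)`,
`W_{-1} = 0`, hence `|W_p| ≤ 2g` (Cauchy-Schwarz); as `y(s) = 0`, `|r_s y(s+1)| ≤ 6ng` and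
`|r_{s-1} y(s-1)| ≤ 6ng`. The vector `(M - t) y_L` equals `f` on `[0,s)`, `r_{s-1} y(s-1)` at `s` and
`0` after `s`, so its norm is at most `g + 6ng ≤ 9ng`; the same for `y_R`. -/
def S_trunc : Prop := ∀ (n : ℕ) (a r : ℕ → ℝ) (t g : ℝ) (y z : Fin n → ℝ) (s : Fin n),
  0 ≤ g → ∑ p, y p ^ 2 = 1 → ∑ p, z p ^ 2 = 1 →
  ∑ p, ((jac n a r).mulVec y p - t * y p) ^ 2 ≤ g ^ 2 →
  ∑ p, ((jac n a r).mulVec z p - t * z p) ^ 2 ≤ g ^ 2 →
  y s = 0 → 1 / (3 * (n : ℝ)) ≤ |z s| →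
  (∑ p, ((jac n a r).mulVec (fun q => if q < s then y q else 0) p
      - t * (if p < s then y p else 0)) ^ 2 ≤ (9 * n * g) ^ 2) ∧
  ∑ p, ((jac n a r).mulVec (fun q => if s < q then y q else 0) p
      - t * (if s < p then y p else 0)) ^ 2 ≤ (9 * n * g) ^ 2

end Pool.Agent.H717.NL
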